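import Pool.Agent.FBZ.Fai

set_option autoImplicit false

open scoped Classical

namespace Pool.Agent.FBZ

variable {K : Type} [Field K]

/-- elements acting trivially -/
def trv {Q A : Type} [Group Q] [AddCommGroup A] (ρ : Q →* Module.End ℤ A) :
    Subgroup (Con (sdat ρ)) where
  carrier := {x | x.a = 0 ∧ ρ x.q = 1}
  one_mem' := ⟨rfl, map_one ρ⟩
  mul_mem' := by
    rintro x y ⟨hx, hx'⟩ ⟨hy, hy'⟩
    refine ⟨?_, ?_⟩
    · rw [Con.mul_a, hx, hy, map_zero, add_zero]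
    · rw [Con.mul_q, map_mul, hx', hy', one_mul]
  inv_mem' := by
    rintro x ⟨hx, hx'⟩
    refine ⟨?_, ?_⟩
    · rw [Con.inv_a, hx, map_zero, neg_zero]
    · have h : ρ x.q * ρ (x.q)⁻¹ = 1 := by rw [← map_mul, mul_inv_cancel, map_one]
      rw [hx', one_mul] at h
      exact h

theorem trv_normal {Q A : Type} [Group Q] [AddCommGroup A] (ρ : Q →* Module.End ℤ A) :
    (trv ρ).Normal := by
  refine ⟨?_⟩
  rintro x ⟨hx, hx'⟩ y
  have h1 : ρ (y.q * x.q * (y.q)⁻¹) = 1 := by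
    rw [map_mul, map_mul, hx', mul_one, ← map_mul, mul_inv_cancel, map_one]
  refine ⟨?_, h1⟩
  have h2 : (sdat ρ).pe (y.q * x.q) ((sdat ρ).pe (y.q)⁻¹ y.a) = y.a := by
    rw [← Module.End.mul_apply, ← map_mul]
    show ρ (y.q * x.q * (y.q)⁻¹) y.a = y.a
    rw [h1, Module.End.one_apply]
  rw [Con.mul_a, Con.mul_a, Con.inv_a, hx, map_zero, add_zero, map_neg, Con.mul_q, h2,
    add_neg_cancel]

theorem final (h2 : (2 : K) = 0) (t : Kˣ) (ht : ∀ m : ℤ, t ^ m = 1 → m = 0)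
    (S : Finset (FreeGroup ℕ)) (hS : ∀ s ∈ S, ∀ f : ℕ → GG, FreeGroup.lift f s = 1) :
    ∃ n : ℕ, Lw n ∉ Subgroup.normalClosure
      {u : FreeGroup ℕ | ∃ s ∈ S, ∃ φ : FreeGroup ℕ →* FreeGroup ℕ, φ s = u} := by
  obtain ⟨N, hN⟩ := letters_fin S
  refine ⟨N + 1, fun hmem => ?_⟩
  have hnorm : ((trv (fdat (P := PP) (tau K (N + 1)))).comap (psi h2 t (N + 1))).Normal :=
    (trv_normal _).comap _
  have hle : Subgroup.normalClosure
      {u : FreeGroup ℕ | ∃ s ∈ S, ∃ φ : FreeGroup ℕ →* FreeGroup ℕ, φ s = u} ≤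
      (trv (fdat (P := PP) (tau K (N + 1)))).comap (psi h2 t (N + 1)) := by
    apply Subgroup.normalClosure_le_normal
    rintro _ ⟨s, hs, φ, rfl⟩
    refine law_transfer (Nat.lt_succ_self N) s ?_ ?_ ((psi h2 t (N + 1)).comp φ)
    · intro f
      have h1 := hS s hs fun i => f (FreeGroup.of i)
      have h3 : FreeGroup.lift (fun i => f (FreeGroup.of i)) = f := by
        apply FreeGroup.ext_hom
        intro i
        simp
      rw [h3] at h1
      exact h1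
    · intro H _ ψ ψ' hψ
      exact hN H ψ ψ' hψ s hs
  exact Lw_fails h2 t ht (N + 1) (hle hmem).1

end Pool.Agent.FBZ
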