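import Pool.Agent.FBZ.Wrd

set_option autoImplicit false

open scoped Classical

namespace Pool.Agent.FBZ

variable {K : Type} [Field K] {n : ℕ}

/-- the model group -/
abbrev WG (K : Type) [Field K] (n : ℕ) : Type := Con (sdat (fdat (P := PP) (tau K n)))

/-- inclusion of the acting group -/
noncomputable def inq : Con (mdat K n) × PP →* WG K n where
  toFun q := ⟨0, (), q⟩
  map_one' := rfl
  map_mul' q q' := by
    refine Con.ext ?_ (Subsingleton.elim _ _) rfl
    simp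

@[simp] theorem inq_a (q : Con (mdat K n) × PP) : (inq q).a = 0 := rfl
@[simp] theorem inq_q (q : Con (mdat K n) × PP) : (inq q).q = q := rfl

def u2 : (ZMod 5)ˣ := ⟨2, 3, by decide, by decide⟩

def sX : PP := ⟨0, (), u2⟩
def sY : PP := ⟨4, (), u2⟩
def ss (x : ZMod 5) : PP := ⟨x, (), 1⟩

theorem cm_sXY : cm (sX ^ 2) (sY ^ 2) = ss 1 := by
  refine Con.ext ?_ (Subsingleton.elim _ _) (cm_eq_one (mul_comm _ _))
  rw [cm_a _ _ ?_ (mul_comm _ _)]
  · rw [pow_two, pow_two]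
    show ((u2 * u2 : (ZMod 5)ˣ) : ZMod 5) * (4 + (u2 : ZMod 5) * 4) - (4 + (u2 : ZMod 5) * 4) = 1
    decide
  · rw [pow_two]
    show (0 : ZMod 5) + (u2 : ZMod 5) * 0 = 0
    decide

theorem ss_inv_mul (x y : ZMod 5) : (ss x)⁻¹ * ss y = ss (y - x) := by
  refine Con.ext ?_ (Subsingleton.elim _ _) ?_
  · show (-(prho (1 : (ZMod 5)ˣ)⁻¹ x)) + prho (1 : (ZMod 5)ˣ)⁻¹ y = y - x
    rw [inv_one, map_one, Module.End.one_apply, Module.End.one_apply]
    ring
  · show (1 : (ZMod 5)ˣ)⁻¹ * 1 = 1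
    simp

theorem ss_sq (x : ZMod 5) : ss x ^ 2 = ss (2 * x) := by
  refine Con.ext ?_ (Subsingleton.elim _ _) ?_
  · rw [pow_two]
    show x + prho (1 : (ZMod 5)ˣ) x = 2 * x
    rw [map_one, Module.End.one_apply]
    ring
  · rw [pow_two]
    show (1 : (ZMod 5)ˣ) * 1 = 1
    simp

theorem single_ss {V : Type} [AddCommGroup V] (f : V) (x : ZMod 5) :
    (Pi.single (1 : PP) f : PP → V) (ss x) = if x = 0 then f else 0 := by
  by_cases hx : x = 0
  · subst hx
    have : ss 0 = (1 : PP) := rfl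
    rw [this, Pi.single_eq_same, if_pos rfl]
  · have : ss x ≠ (1 : PP) := fun h => hx (congrArg Con.a h)
    rw [Pi.single_eq_of_ne this, if_neg hx]

/-- the class function -/
noncomputable def ff (h2 : (2 : K) = 0) (n : ℕ) : WW K n := ⟨fun γ => γ.c, cfun_mem h2⟩

/-- the homomorphism refuting the law -/
noncomputable def psi (h2 : (2 : K) = 0) (t : Kˣ) (n : ℕ) : FreeGroup ℕ →* WG K n :=
  FreeGroup.lift fun i => match i with
    | 0 => inq (1, sX)
    | 1 => inq (1, sY)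
    | 2 => inq (1, ss 1)
    | 3 => ⟨Pi.single 1 (ff h2 n), (), (1, ss 1)⟩
    | 4 => inq (⟨0, 0, (1, t)⟩, 1)
    | 5 => inq (⟨Pi.single 1 1, 0, (1, t)⟩, 1)
    | i + 6 => if h : i < n then inq (⟨0, 0, (⟨Pi.single ⟨i, h⟩ 1, 0⟩, 1)⟩, 1) else 1

/-- the translation action on a single coordinate -/
theorem act_ss (g : PP → WW K n) (x y : ZMod 5) :
    (sdat (fdat (P := PP) (tau K n))).pe (1, ss x) g (ss y) = g (ss (y - x)) := by
  show fdat (tau K n) (1, ss x) g (ss y) = _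
  rw [fdat_apply, map_one, ss_inv_mul, Module.End.one_apply]

theorem psi_bw1 (h2 : (2 : K) = 0) (t : Kˣ) (n : ℕ) : psi h2 t n bw1 = inq (1, ss 1) := by
  have h0 : psi h2 t n (FreeGroup.of 0) = inq (1, sX) := by simp [psi]
  have h1 : psi h2 t n (FreeGroup.of 1) = inq (1, sY) := by simp [psi]
  rw [bw1, map_cm, map_pow, map_pow, h0, h1, ← map_pow, ← map_pow, ← map_cm]
  congr 1
  refine Prod.ext ?_ cm_sXY
  show cm (1 ^ 2 : Con (mdat K n)) (1 ^ 2) = 1
  simp [cm]

theorem psi_bw2 (h2 : (2 : K) = 0) (t : Kˣ) (n : ℕ) : (psi h2 t n bw2).q = 1 ∧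
    ∀ y, (psi h2 t n bw2).a (ss y) =
      ((if y - 2 = 0 then ff h2 n else 0) + (if y - 2 - 1 = 0 then ff h2 n else 0)) -
      ((if y = 0 then ff h2 n else 0) + (if y - 1 = 0 then ff h2 n else 0)) := by
  have e2 : psi h2 t n (FreeGroup.of 2) = inq (1, ss 1) := by simp [psi]
  have e3 : psi h2 t n (FreeGroup.of 3) = ⟨Pi.single 1 (ff h2 n), (), (1, ss 1)⟩ := by simp [psi]
  have hq2 : (inq (1, ss 1) ^ 2 : WG K n).q = (1, ss 2) := by
    rw [← map_pow, inq_q]
    refine Prod.ext ?_ ?_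
    · simp
    · show ss 1 ^ 2 = ss 2
      rw [ss_sq, mul_one]
  have hq3 : ((⟨Pi.single 1 (ff h2 n), (), (1, ss 1)⟩ : WG K n) ^ 2).q = (1, ss 2) := by
    rw [← hq2, pow_two, pow_two]
    rfl
  rw [bw2, map_cm, map_pow, map_pow, e2, e3]
  constructor
  · rw [cm_q, hq2, hq3]
    exact cm_eq_one rfl
  · intro y
    rw [cm_a _ _ ?_ ?_]
    · rw [hq2, Pi.sub_apply, act_ss, pow_two, Con.mul_a]
      simp only [Pi.add_apply, act_ss, single_ss]
    · rw [← map_pow, inq_a]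
    · rw [hq2, hq3]

theorem psi_vw (h2 : (2 : K) = 0) (t : Kˣ) (n : ℕ) : (psi h2 t n vw).q = 1 ∧
    (psi h2 t n vw).a (ss 1) = ff h2 n := by
  obtain ⟨hq, ha⟩ := psi_bw2 h2 t n
  have h1 := psi_bw1 h2 t n
  rw [vw, map_cm, map_cm, h1]
  have hq1 : (cm (psi h2 t n bw2) (inq (1, ss 1))).q = 1 := by
    rw [cm_q, hq]; exact cm_eq_one (by rw [one_mul, mul_one])
  constructor
  · rw [cm_q, hq1]; exact cm_eq_one (by rw [one_mul, mul_one])
  · rw [cm_a1 _ _ hq1, cm_a1 _ _ hq, inq_q]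
    simp only [Pi.sub_apply, act_ss, ha]
    have d1 : ((1 : ZMod 5) - 2 = 0) = False := eq_false (by decide)
    have d2 : ((1 : ZMod 5) - 2 - 1 = 0) = False := eq_false (by decide)
    have d3 : ((1 : ZMod 5) = 0) = False := eq_false (by decide)
    have d4 : ((1 : ZMod 5) - 1 = 0) = True := eq_true (by decide)
    have d5 : ((1 : ZMod 5) - 1 - 2 = 0) = False := eq_false (by decide)
    have d6 : ((1 : ZMod 5) - 1 - 2 - 1 = 0) = False := eq_false (by decide)
    have d7 : ((1 : ZMod 5) - 1 - 1 = 0) = False := eq_false (by decide)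
    have d8 : ((1 : ZMod 5) - 1 - 1 - 2 = 0) = False := eq_false (by decide)
    have d9 : ((1 : ZMod 5) - 1 - 1 - 2 - 1 = 0) = False := eq_false (by decide)
    have d10 : ((1 : ZMod 5) - 1 - 1 - 1 = 0) = False := eq_false (by decide)
    simp only [d1, d2, d3, d4, d5, d6, d7, d8, d9, d10, if_true, if_false]
    abel

/-! ### the factors coming from the model -/

theorem cm_inq (x y : Con (mdat K n) × PP) : cm (inq x) (inq y) = inq (cm x y) := (map_cm inq x y).symm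

theorem pow_P (t : Kˣ) (m : ℕ) : ((⟨0, 0, (1, t)⟩ : Con (mdat K n)) ^ m) = ⟨0, 0, (1, t ^ m)⟩ := by
  induction m with
  | zero => rw [pow_zero, pow_zero]; rfl
  | succ m ih =>
    rw [pow_succ, ih]
    refine Con.ext ?_ ?_ ?_
    · simp
    · simp
    · simp [pow_succ]

theorem pow_R (t : Kˣ) (m : ℕ) : ((⟨Pi.single 1 1, 0, (1, t)⟩ : Con (mdat K n)) ^ m).a =
      Pi.single 1 (∑ i ∈ Finset.range m, (t : K) ^ i) ∧
    ((⟨Pi.single 1 1, 0, (1, t)⟩ : Con (mdat K n)) ^ m).q = (1, t ^ m) := by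
  induction m with
  | zero =>
    refine ⟨by simp, ?_⟩
    rw [pow_zero, pow_zero]
    rfl
  | succ m ih =>
    obtain ⟨ih1, ih2⟩ := ih
    constructor
    · rw [pow_succ, Con.mul_a, ih1, ih2, mpe_single, mul_one, mul_one]
      show (Pi.single 1 (∑ i ∈ Finset.range m, (t : K) ^ i) : Hn n → K) +
        (Pi.single 1 ((t ^ m : Kˣ) : K) : Hn n → K) = _
      rw [← Pi.single_add, Finset.sum_range_succ, Units.val_pow_eq_pow_val]
    · rw [pow_succ, Con.mul_q, ih2]
      simp [pow_succ]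

/-- the value of the word `aw` -/
theorem psi_aw (h2 : (2 : K) = 0) (t : Kˣ) (n : ℕ) : ∃ A : Con (mdat K n),
    psi h2 t n aw = inq (A, 1) ∧ A.q = 1 ∧
    A.a = Pi.single 1 (((t : K) ^ ee - 1) * ∑ i ∈ Finset.range ee, (t : K) ^ i) := by
  have e4 : psi h2 t n (FreeGroup.of 4) = inq (⟨0, 0, (1, t)⟩, 1) := by simp [psi]
  have e5 : psi h2 t n (FreeGroup.of 5) = inq (⟨Pi.single 1 1, 0, (1, t)⟩, 1) := by simp [psi]
  refine ⟨cm ((⟨0, 0, (1, t)⟩ : Con (mdat K n)) ^ ee) (⟨Pi.single 1 1, 0, (1, t)⟩ ^ ee), ?_, ?_, ?_⟩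
  · rw [aw, map_cm, map_pow, map_pow, e4, e5, ← map_pow, ← map_pow, cm_inq]
    congr 1
    refine Prod.ext rfl ?_
    show cm ((1 : PP) ^ ee) (1 ^ ee) = 1
    simp [cm]
  · rw [cm_q, pow_P, (pow_R t ee).2]
    exact cm_eq_one rfl
  · rw [cm_a _ _ (by rw [pow_P]) (by rw [pow_P, (pow_R t ee).2]), pow_P, (pow_R t ee).1]
    rw [mpe_single, mul_one]
    show (Pi.single 1 (((t ^ ee : Kˣ) : K) * ∑ i ∈ Finset.range ee, (t : K) ^ i) : Hn n → K) -
      (Pi.single 1 (∑ i ∈ Finset.range ee, (t : K) ^ i) : Hn n → K) = _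
    rw [← Pi.single_sub, Units.val_pow_eq_pow_val, sub_mul, one_mul]

/-- the value of the word `cw` -/
theorem psi_cw (h2 : (2 : K) = 0) (t : Kˣ) (n m : ℕ) (hm : m ≤ n) : ∃ C : Con (mdat K n),
    psi h2 t n (cw m) = inq (C, 1) ∧ C.a = 0 ∧
    C.q = (⟨0, fun i j => if i = j ∧ i.val < m then 1 else 0⟩, 1) := by
  induction m with
  | zero =>
    refine ⟨1, ?_, rfl, ?_⟩
    · simp only [cw, map_one]
      rfl
    · simp only [Con.one_q, Nat.not_lt_zero, and_false, if_false]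
      rfl
  | succ m ih =>
    obtain ⟨C, hC, ih1, ih2⟩ := ih (by omega)
    have hX : psi h2 t n (FreeGroup.of (m + 6)) =
        inq ((⟨0, 0, (⟨Pi.single ⟨m, by omega⟩ 1, 0⟩, 1)⟩ : Con (mdat K n)), 1) := by
      have : m < n := by omega
      simp [psi, this]
    refine ⟨C * (⟨0, 0, (⟨Pi.single ⟨m, by omega⟩ 1, 0⟩, 1)⟩ : Con (mdat K n)) ^ 2, ?_, ?_, ?_⟩
    · rw [cw, map_mul, map_pow, hX, hC, ← map_pow, ← map_mul]
      rfl
    · simp [ih1, pow_two]
    · simp only [pow_two, Con.mul_q, ih2]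
      refine Prod.ext (Hn.ext ?_ ?_) ?_
      · simp [vadd_self]
      · funext i j
        simp only [Prod.mk_mul_mk, Hn.mul_w, Hn.mul_e, Pi.add_apply, Pi.zero_apply,
          zero_mul, add_zero, zero_add, Pi.single_apply, mul_ite, mul_one, mul_zero, Fin.ext_iff]
        by_cases h1 : i.val = j.val
        · by_cases h3 : j.val = m
          · simp [h1, h3]
          · by_cases h4 : j.val < m
            · simp [h1, h3, h4, Nat.lt_succ_of_lt h4]
            · have : ¬ j.val < m + 1 := by omega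
              simp [h1, h3, h4, this]
        · by_cases h3 : j.val = m
          · have h5 : ¬ i.val = m := by omega
            simp [h1, h3, h5]
          · simp [h1, h3]
      · simp

theorem kap_ne (t : Kˣ) (ht : ∀ m : ℤ, t ^ m = 1 → m = 0) (e : ℕ) (he : 0 < e) :
    (((t : K) ^ e - 1) * ∑ i ∈ Finset.range e, (t : K) ^ i) ≠ 0 := by
  have h1 : (t : K) ^ e - 1 ≠ 0 := by
    intro h5
    have h6 : t ^ (e : ℤ) = 1 := by
      refine Units.ext ?_
      have : (t : K) ^ e = 1 := by linear_combination h5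
      simpa using this
    have := ht e h6
    omega
  refine mul_ne_zero h1 ?_
  intro h
  apply h1
  rw [← geom_sum_mul, h, zero_mul]

/-- the law fails in the model group -/
theorem Lw_fails (h2 : (2 : K) = 0) (t : Kˣ) (ht : ∀ m : ℤ, t ^ m = 1 → m = 0) (n : ℕ) :
    (psi h2 t n (Lw n)).a ≠ 0 := by
  intro hcon
  obtain ⟨hvq, hva⟩ := psi_vw h2 t n
  obtain ⟨A, hA, hAq, hAa⟩ := psi_aw h2 t n
  obtain ⟨C, hC, hCa, hCq⟩ := psi_cw h2 t n n le_rfl
  have hcac : psi h2 t n (cw n * aw * (cw n)⁻¹) = inq (C * A * C⁻¹, 1) := by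
    rw [map_mul, map_mul, map_inv, hA, hC, ← map_inv, ← map_mul, ← map_mul]
    have hcc : ((C, 1) * (A, 1) * (C, 1)⁻¹ : Con (mdat K n) × PP) = (C * A * C⁻¹, 1) :=
      Prod.ext rfl (by simp)
    exact congrArg inq hcc
  rw [Lw, map_cm, map_cm, hA, hcac] at hcon
  set v := psi h2 t n vw with hv
  set κ := (((t : K) ^ ee - 1) * ∑ i ∈ Finset.range ee, (t : K) ^ i) with hκ
  have hq1 : (cm v (inq (A, 1))).q = 1 := by
    rw [cm_q, hvq]; exact cm_eq_one (by rw [one_mul, mul_one])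
  rw [cm_a1 (cm v (inq (A, 1))) _ hq1, cm_a1 v (inq (A, 1)) hvq] at hcon
  set A' := C * A * C⁻¹ with hA'
  have h1 := congrFun hcon (ss 1)
  have h3 : ∀ (B : Con (mdat K n)) (g : PP → WW K n),
      (sdat (fdat (P := PP) (tau K n))).pe (inq (B, 1)).q g (ss 1) = tau K n B (g (ss 1)) := by
    intro B g
    show fdat (tau K n) (B, 1) g (ss 1) = _
    rw [fdat_apply]
    simp
  rw [Pi.sub_apply, h3, Pi.sub_apply, h3, hva] at h1
  have h4 := congrFun (congrArg Subtype.val h1) (1 : Con (mdat K n))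
  have h5 : ((1 : Con (mdat K n)).c - (1 * A).c) - ((1 * A').c - (1 * A' * A).c) = 0 := h4
  have hA'q : A'.q = 1 := by simp [hA', hAq]
  rw [one_mul, one_mul, Con.one_c, Con.mul_c A' A, hA'q, map_one, map_one, Module.End.one_apply,
    Module.End.one_apply] at h5
  have hA'a : A'.a = Pi.single C.q.1 κ := by
    rw [hA', Con.mul_a, Con.mul_a, Con.inv_a, hCa, hAa, map_zero, neg_zero, map_zero, add_zero,
      zero_add, mpe_single, mul_one, hCq]
    simp
  have hphi : phi K C.q.1 1 = 1 := by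
    rw [phi_symm, phi_eq, hCq]
    simp only [Hn.one_e, if_true, Hn.one_w, zero_add]
    refine Dc_one _ _ fun z hz => ?_
    rw [← hz]
    funext j
    simp [ctr]
  rw [hAa, hA'a, mom_single, hphi] at h5
  have h6 : κ * κ = 0 := by linear_combination h5
  exact kap_ne t ht ee (by unfold ee; have := Nat.card_pos (α := PP); omega) (mul_self_eq_zero.mp h6)

end Pool.Agent.FBZ
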