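import Pool.Agent.FBZ.Can

set_option autoImplicit false

open scoped Classical

namespace Pool.Agent.FBZ

variable {K : Type} [Field K] {n : ℕ}

/-- constants in `Wr` -/
def cst : CC →* Wr CC where
  toFun u := ⟨fun _ => u, 0⟩
  map_one' := rfl
  map_mul' u v := by ext m <;> simp

theorem rg_of {X : Type} (Y : UZ ℤ X)
    (hG : ∀ φ : FreeGroup X →* Con gdat, LZ gdat φ Y = 0) : RG Y.1 := by
  intro Ψ a
  let φ : FreeGroup X →* Con gdat :=
    FreeGroup.lift fun x => ⟨fun m => ((a x m).1, (a x m).2), 0, Ψ (FreeGroup.of x)⟩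
  have hq : ∀ g, (φ g).q = Ψ g := by
    intro g
    have : (Con.proj gdat).comp φ = Ψ := by
      apply FreeGroup.ext_hom
      intro x
      simp [φ, Con.proj]
    exact DFunLike.congr_fun this g
  have ha : ∀ x, (φ (FreeGroup.of x)).a = fun m => (((a x m).1 : OO), ((a x m).2 : OO)) := by
    intro x; simp [φ]
  have hc : ∀ x, (φ (FreeGroup.of x)).c = 0 := by intro x; simp [φ]
  have h0 := congrFun (hG φ) 0
  rw [LZ, LinearMap.coprod_apply, LZ1] at h0
  simp only [hc, map_zero] at h0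
  have h1 : (Finsupp.linearCombination ℤ fun _ : FreeGroup X × X => (0 : ZMod 2 → OO)) Y.2 = 0 := by
    rw [Finsupp.linearCombination_apply]
    simp
  rw [h1, add_zero] at h0
  have h2 : (LinearMap.proj (R := ℤ) (φ := fun _ : ZMod 2 => OO) 0) (LZ2 gdat φ Y.1) = 0 := h0
  rw [LZ2, Finsupp.apply_linearCombination] at h2
  rw [← h2]
  congr 2
  funext p
  simp only [Function.comp_apply, hq, ha]
  show _ = ((up ((Ψ p.1.1).b 0) : OO) • (((a p.1.2 (0 + (Ψ p.1.1).s)).1 : OO),
      ((a p.1.2 (0 + (Ψ p.1.1).s)).2 : OO))).1 *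
    ((up ((Ψ p.2.1).b 0) : OO) • (((a p.2.2 (0 + (Ψ p.2.1).s)).1 : OO),
      ((a p.2.2 (0 + (Ψ p.2.1).s)).2 : OO))).2 -
    ((up ((Ψ p.1.1).b 0) : OO) • (((a p.1.2 (0 + (Ψ p.1.1).s)).1 : OO),
      ((a p.1.2 (0 + (Ψ p.1.1).s)).2 : OO))).2 *
    ((up ((Ψ p.2.1).b 0) : OO) • (((a p.2.2 (0 + (Ψ p.2.1).s)).1 : OO),
      ((a p.2.2 (0 + (Ψ p.2.1).s)).2 : OO))).1
  simp only [kr, Om, zero_add, Prod.smul_fst, Prod.smul_snd, smul_eq_mul, map_mul, Units.val_mul,
    zsmul_eq_mul]
  push_cast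
  ring

theorem lin_univ {X : Type} (Y : UZ ℤ X)
    (hG : ∀ φ : FreeGroup X →* Con gdat, LZ gdat φ Y = 0)
    {B : Type} [CommGroup B] (ψ : FreeGroup X →* B) (f : B → K) (x : X) :
    Finsupp.linearCombination ℤ
      (fun p : FreeGroup X × X => if p.2 = x then f ((ψ p.1) ^ 2) else 0) Y.2 = 0 := by
  let L : Multiplicative (X →₀ ℤ) →* B := AddMonoidHom.toMultiplicativeLeft
    (Finsupp.liftAddHom fun i : X =>
      (zmultiplesHom (Additive B)) (Additive.ofMul (ψ (FreeGroup.of i))))
  have hL : ∀ i : X, L (Multiplicative.ofAdd (Finsupp.single i 1)) = ψ (FreeGroup.of i) := by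
    intro i
    have : (Finsupp.liftAddHom fun i : X =>
      (zmultiplesHom (Additive B)) (Additive.ofMul (ψ (FreeGroup.of i))))
        (Finsupp.single i 1) = Additive.ofMul (ψ (FreeGroup.of i)) := by
      simp
    exact congrArg Additive.toMul this
  let U : FreeGroup X →* Multiplicative (X →₀ ℤ) :=
    FreeGroup.lift fun x => Multiplicative.ofAdd (Finsupp.single x 1)
  have hU : L.comp U = ψ := by
    ext x
    simp [U, hL]
  let F : (FreeGroup X × X) → (Multiplicative (X →₀ ℤ) →₀ ℤ) :=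
    fun p => if p.2 = x then Finsupp.single ((U p.1) ^ 2) 1 else 0
  have hF : ∀ {M : Type} [AddCommGroup M] (g : Multiplicative (X →₀ ℤ) → M),
      Finsupp.linearCombination ℤ g (Finsupp.linearCombination ℤ F Y.2) =
        Finsupp.linearCombination ℤ
          (fun p : FreeGroup X × X => if p.2 = x then g ((U p.1) ^ 2) else 0) Y.2 := by
    intro M _ g
    rw [Finsupp.apply_linearCombination]
    congr 2
    funext p
    simp only [F, Function.comp_apply]
    split_ifs <;> simp
  have hA : Finsupp.linearCombination ℤ F Y.2 = 0 := by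
    refine ded _ fun χ => ?_
    have h5 : Finsupp.linearCombination ℤ
        (fun p : FreeGroup X × X => if p.2 = x then (up (χ ((U p.1) ^ 2)) : OO) else 0) Y.2 = 0 := by
      let φ : FreeGroup X →* Con gdat :=
        FreeGroup.lift fun y => ⟨0, fun _ => if y = x then 1 else 0, cst (χ (U (FreeGroup.of y)))⟩
      have hq : ∀ g, (φ g).q = cst (χ (U g)) := by
        intro g
        have : (Con.proj gdat).comp φ = cst.comp (χ.comp U) := by
          apply FreeGroup.ext_hom
          intro y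
          simp [φ, Con.proj]
        exact DFunLike.congr_fun this g
      have ha : ∀ y, (φ (FreeGroup.of y)).a = 0 := by intro y; simp [φ]
      have hc : ∀ y, (φ (FreeGroup.of y)).c = fun _ => if y = x then 1 else 0 := by
        intro y; simp [φ]
      have h0 := congrFun (hG φ) 0
      rw [LZ, LinearMap.coprod_apply, LZ2] at h0
      simp only [ha, map_zero] at h0
      have h1 : (Finsupp.linearCombination ℤ fun _ : (FreeGroup X × X) × (FreeGroup X × X) =>
          (0 : ZMod 2 → OO)) Y.1 = 0 := by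
        rw [Finsupp.linearCombination_apply]
        simp
      rw [h1, zero_add] at h0
      have h2 : (LinearMap.proj (R := ℤ) (φ := fun _ : ZMod 2 => OO) 0) (LZ1 gdat φ Y.2) = 0 := h0
      rw [LZ1, Finsupp.apply_linearCombination] at h2
      refine Eq.trans ?_ h2
      congr 2
      funext p
      simp only [Function.comp_apply, hq, hc]
      show _ = (up (χ (U p.1)) : OO) ^ 2 * (if p.2 = x then (1 : OO) else 0)
      split_ifs with h
      · rw [mul_one, map_pow, map_pow, Units.val_pow_eq_pow_val]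
      · rw [mul_zero]
    exact (hF (M := OO) _).trans h5
  have h0 := hF (fun y => f (L y))
  rw [hA, map_zero] at h0
  refine Eq.trans ?_ h0.symm
  congr 2
  funext p
  simp only [← hU, MonoidHom.comp_apply, map_pow]

theorem lin_of (z : Vn n) (Y : UZ ℤ (Gn K n z))
    (hG : ∀ φ : FreeGroup (Gn K n z) →* Con gdat, LZ gdat φ Y = 0) :
    LZ1 (mdat K n) (can z) Y.2 = 0 := by
  have hcc : ∀ y : Gn K n z, (can z (FreeGroup.of y)).c = (canx z y).c := by
    intro y; simp [can]
  have key : ∀ p : FreeGroup (Gn K n z) × Gn K n z,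
      (mdat K n).pz (can z p.1).q (can z (FreeGroup.of p.2)).c =
      ((qn z p.1).2 : K) ^ 2 * (canx z p.2).c := by
    intro p
    rw [hcc]
    rfl
  have h1 : ∀ x : Gn K n z, Finsupp.linearCombination ℤ
      (fun p : FreeGroup (Gn K n z) × Gn K n z =>
        if p.2 = x then ((qn z p.1).2 : K) ^ 2 * (canx z x).c else 0) Y.2 = 0 := by
    intro x
    have := lin_univ Y hG ((MonoidHom.snd (Hn n) Kˣ).comp (qn z))
      (fun v : Kˣ => (v : K) * (canx z x).c) x
    simpa using this
  unfold LZ1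
  simp only [key]
  have h2 : ∀ p ∈ Y.2.support, ((qn z p.1).2 : K) ^ 2 * (canx z p.2).c =
      ∑ x ∈ Y.2.support.image Prod.snd,
        if p.2 = x then ((qn z p.1).2 : K) ^ 2 * (canx z x).c else 0 := by
    intro p hp
    rw [Finset.sum_ite_eq, if_pos (Finset.mem_image_of_mem _ hp)]
  rw [Finsupp.linearCombination_apply, Finsupp.sum]
  rw [Finset.sum_congr rfl fun p hp => by rw [h2 p hp]]
  simp only [Finset.smul_sum]
  rw [Finset.sum_comm]
  refine Finset.sum_eq_zero fun x _ => ?_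
  have := h1 x
  rw [Finsupp.linearCombination_apply, Finsupp.sum] at this
  exact this

theorem KLem (h2 : (2 : K) = 0)
    (z : Vn n) (hz : z ≠ 0) (Y : UZ ℤ (Gn K n z))
    (hG : ∀ φ : FreeGroup (Gn K n z) →* Con gdat, LZ gdat φ Y = 0) :
    LZ (mdat K n) (can z) Y = 0 := by
  rw [LZ, LinearMap.coprod_apply, lin_of z Y hG, add_zero]
  exact quad h2 z hz Y.1 (RP_of_RG _ (rg_of Y hG))

theorem univ_c' {Q E Z X : Type} [Group Q] [AddCommGroup E]
    [AddCommGroup Z] (D : Dat ℤ Q E Z) (f : FreeGroup X →* Con D) (k : FreeGroup X) :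
    (f k).c = LZ D f (Ups ℤ X k).c := by
  rw [univ_c D f k, LZ, LinearMap.coprod_apply]

/-- identities of the integral representation -/
def IsId (u : FreeGroup ℕ →₀ ℤ) : Prop :=
  ∀ (φ : FreeGroup ℕ →* Con gdat) (v : ℤ × (ZMod 2 → OO × OO) × (ZMod 2 → OO)),
    (u.sum fun k r => r • Con.rep gdat (φ k) v) = 0

theorem main1 (h2 : (2 : K) = 0)
    (z : Vn n) (hz : z ≠ 0) (u : FreeGroup ℕ →₀ ℤ) (hu : IsId u)
    (j : FreeGroup ℕ →* FreeGroup (Gn K n z)) (y : FreeGroup (Gn K n z)) :
    (u.sum fun k r => r • (can z (y * j k)).c) = 0 := by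
  let Y : UZ ℤ (Gn K n z) := u.sum fun k r => r • (Ups ℤ (Gn K n z) (y * j k)).c
  have hL : ∀ {Q E Z : Type} [Group Q] [AddCommGroup E]
      [AddCommGroup Z] (D : Dat ℤ Q E Z) (f : FreeGroup (Gn K n z) →* Con D),
      LZ D f Y = u.sum fun k r => r • (f (y * j k)).c := by
    intro Q E Z _ _ _ D f
    simp only [Y, Finsupp.sum, map_sum, map_smul, univ_c' D f]
  have h1 := KLem h2 z hz Y ?_
  · rw [hL] at h1
    exact h1
  · intro φ
    rw [hL]
    have h4 := hu (φ.comp j) ((1, 0, 0) : ℤ × (ZMod 2 → OO × OO) × (ZMod 2 → OO))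
    have h5 := congrArg (Con.rep gdat (φ y)) h4
    rw [map_zero, Finsupp.sum, map_sum] at h5
    have h6 := congrArg (fun v : ℤ × (ZMod 2 → OO × OO) × (ZMod 2 → OO) => v.2.2) h5
    simp only [Prod.snd_sum, Prod.snd_zero] at h6
    rw [Finsupp.sum, ← h6]
    refine Finset.sum_congr rfl fun k _ => ?_
    have h7 : Con.rep gdat (φ y) (u k • Con.rep gdat ((φ.comp j) k) (1, 0, 0)) =
        u k • Con.rep gdat (φ (y * j k)) (1, 0, 0) := by
      rw [map_smul, map_mul, map_mul]
      rfl
    rw [h7]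
    simp

end Pool.Agent.FBZ
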