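import Pool.Agent.FBZ.Noe
import Pool.Agent.FBZ.Endz

set_option autoImplicit false

open scoped Classical

namespace Pool.Agent.FBZ

/-! ### the big group is linear over the integers -/

theorem gdat_inj : Function.Injective gdat.pe := by
  intro x y h
  have h1 : ∀ (e : ZMod 2 → OO × OO) (m : ZMod 2),
      (up (x.b m) : OO) • e (m + x.s) = (up (y.b m) : OO) • e (m + y.s) := by
    intro e m
    exact congrFun (DFunLike.congr_fun h e) m
  refine Wr.ext (funext fun m => ?_) ?_
  · have h2 := congrArg Prod.fst (h1 (fun _ => (1, 0)) m)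
    have h3 : (up (x.b m) : OO) = (up (y.b m) : OO) := by
      simpa using h2
    have h4 : up (x.b m) = up (y.b m) := Units.ext h3
    have h5 : up (x.b m * (y.b m)⁻¹) = 1 := by rw [map_mul, map_inv, h4, mul_inv_cancel]
    exact mul_inv_eq_one.mp (up_one _ h5)
  · by_contra hne
    have h2 := congrArg Prod.fst (h1 (Pi.single 0 (1, 0)) (x.s))
    rw [Wr.add_self_zmod2, Pi.single_eq_same] at h2
    have h3 : x.s + y.s ≠ 0 := by
      intro h4
      apply hne
      have h5 : x.s + y.s + y.s = y.s := by rw [h4, zero_add]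
      rwa [add_assoc, Wr.add_self_zmod2, add_zero] at h5
    rw [Pi.single_eq_of_ne h3] at h2
    have h4 : (up (x.b x.s) : OO) = 0 := by simp at h2
    exact (up (x.b x.s)).ne_zero h4

theorem rep_inj {Q E Z : Type} [Group Q] [AddCommGroup E] [AddCommGroup Z] (D : Dat ℤ Q E Z)
    (hD : Function.Injective D.pe) : Function.Injective (Con.rep D) := by
  intro x y h
  have h1 := DFunLike.congr_fun h ((1 : ℤ), (0 : E), (0 : Z))
  rw [Con.rep_apply, Con.rep_apply] at h1
  simp only [one_smul, map_zero, add_zero, Prod.mk.injEq, true_and] at h1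
  refine Con.ext h1.1 h1.2 (hD (LinearMap.ext fun e => ?_))
  have h2 := DFunLike.congr_fun h ((0 : ℤ), (e : E), (0 : Z))
  rw [Con.rep_apply, Con.rep_apply] at h2
  simp only [zero_smul, zero_add, Prod.mk.injEq, true_and] at h2
  exact h2.1

theorem fdat_inj {G P V : Type} [Group G] [Group P] [AddCommGroup V] (ρ : G →* Module.End ℤ V)
    (hρ : Function.Injective ρ) (v : V) (hv : v ≠ 0) : Function.Injective (fdat (P := P) ρ) := by
  rintro ⟨g, p⟩ ⟨g', p'⟩ h
  have h1 : ∀ (f : P → V) (y : P), ρ g (f (p⁻¹ * y)) = ρ g' (f (p'⁻¹ * y)) := by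
    intro f y
    exact congrFun (DFunLike.congr_fun h f) y
  have hinj : Function.Injective (ρ g) := by
    intro a b hab
    have h3 : ∀ a, ρ g⁻¹ (ρ g a) = a := by
      intro a
      rw [← Module.End.mul_apply, ← map_mul, inv_mul_cancel, map_one, Module.End.one_apply]
    rw [← h3 a, ← h3 b, hab]
  have hp : p = p' := by
    by_contra hne
    have h2 := h1 (Pi.single 1 v) p
    have h3 : p'⁻¹ * p ≠ 1 := fun h4 => hne (inv_mul_eq_one.mp h4).symm
    rw [inv_mul_cancel, Pi.single_eq_same, Pi.single_eq_of_ne h3, map_zero] at h2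
    exact hv (hinj (by rw [h2, map_zero]))
  subst hp
  refine Prod.ext (hρ (LinearMap.ext fun w => ?_)) rfl
  exact h1 (fun _ => w) 1

theorem big_inj : Function.Injective (Con.rep (sdat (fdat (P := PP) (Con.rep gdat)))) :=
  rep_inj _ (fdat_inj _ (rep_inj _ gdat_inj) ((1 : ℤ), 0, 0) (by
    intro h
    exact one_ne_zero (congrArg Prod.fst h)))

def eOO : OO ≃ₗ[ℤ] ℤ × ℤ where
  toFun x := (x.re, x.im)
  invFun p := ⟨p.1, p.2⟩
  map_add' _ _ := rfl
  map_smul' r x := by simp
  left_inv _ := rfl
  right_inv _ := rfl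

instance : Module.Free ℤ OO := Module.Free.of_equiv eOO.symm
instance : Module.Finite ℤ OO := Module.Finite.equiv eOO.symm

/-- the module of the big representation -/
abbrev MM : Type := ℤ × (PP → ℤ × (ZMod 2 → OO × OO) × (ZMod 2 → OO)) × Unit

instance : Module.Free ℤ (PP → ℤ × (ZMod 2 → OO × OO) × (ZMod 2 → OO)) := inferInstance
instance : Module.Finite ℤ (PP → ℤ × (ZMod 2 → OO × OO) × (ZMod 2 → OO)) := inferInstance

/-- the dimension -/
noncomputable def dd : ℕ := Module.finrank ℤ MM

noncomputable def bas : Module.Basis (Fin dd) ℤ MM := Module.finBasis ℤ MM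

/-- integral matrices -/
noncomputable def mtx : GG →* GL (Fin dd) ℤ :=
  MonoidHom.toHomUnits (((LinearMap.toMatrixAlgEquiv bas).toRingEquiv.toMonoidHom).comp
    (Con.rep (sdat (fdat (P := PP) (Con.rep gdat)))))

theorem mtx_inj : Function.Injective mtx := by
  intro x y h
  apply big_inj
  apply (LinearMap.toMatrixAlgEquiv bas).injective
  exact congrArg Units.val h

noncomputable def mtxK (K : Type) [Field K] : GG →* GL (Fin dd) K :=
  (Matrix.GeneralLinearGroup.map (Int.castRingHom K)).comp mtx

theorem mtxK_inj (K : Type) [Field K] [CharZero K] : Function.Injective (mtxK K) := by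
  intro x y h
  apply mtx_inj
  apply Units.ext
  refine Matrix.ext fun i j => ?_
  have h1 : ((mtxK K x : GL (Fin dd) K) : Matrix (Fin dd) (Fin dd) K) i j =
      ((mtxK K y : GL (Fin dd) K) : Matrix (Fin dd) (Fin dd) K) i j := by rw [h]
  exact Int.cast_injective h1

theorem mtxK_int (K : Type) [Field K] (x : GG) (i j : Fin dd) :
    ∃ z : ℤ, ((mtxK K x : GL (Fin dd) K) : Matrix (Fin dd) (Fin dd) K) i j = (z : K) :=
  ⟨((mtx x : GL (Fin dd) ℤ) : Matrix (Fin dd) (Fin dd) ℤ) i j, rfl⟩

theorem range_not (L : Type) [Group L] (f : GG →* L) (hf : Function.Injective f) :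
    Group.IsSolvable f.range ∧ (∀ H : Subgroup f.range, H.FG) ∧
    ∀ (K : Type) [Field K] (_ : (2 : K) = 0) (t : Kˣ) (_ : ∀ m : ℤ, t ^ m = 1 → m = 0),
    ¬ ∃ S : Finset (FreeGroup ℕ), ∀ w : FreeGroup ℕ,
      (∀ g : ℕ → f.range, FreeGroup.lift g w = 1) ↔
        w ∈ Subgroup.normalClosure
          {u : FreeGroup ℕ | ∃ φ : FreeGroup ℕ →* FreeGroup ℕ, ∃ s ∈ S, u = φ s} := by
  let e : GG ≃* f.range := MonoidHom.ofInjective hf
  refine ⟨?_, ?_, ?_⟩
  · have := solv_GG
    exact Group.isSolvable_of_isSolvable_injective (f := e.symm.toMonoidHom) e.symm.injective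
  · exact Noe.inj noe_GG e.symm.toMonoidHom e.symm.injective
  · intro K _ h2 t ht
    rintro ⟨S, hS⟩
    have hset : {u : FreeGroup ℕ | ∃ φ : FreeGroup ℕ →* FreeGroup ℕ, ∃ s ∈ S, u = φ s} =
        {u : FreeGroup ℕ | ∃ s ∈ S, ∃ φ : FreeGroup ℕ →* FreeGroup ℕ, φ s = u} := by
      ext u
      constructor
      · rintro ⟨φ, s, hs, rfl⟩
        exact ⟨s, hs, φ, rfl⟩
      · rintro ⟨s, hs, φ, rfl⟩
        exact ⟨φ, s, hs, rfl⟩
    rw [hset] at hS
    have key : ∀ (w : FreeGroup ℕ), (∀ g : ℕ → f.range, FreeGroup.lift g w = 1) ↔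
        ∀ g : ℕ → GG, FreeGroup.lift g w = 1 := by
      intro w
      constructor
      · intro h g
        have h1 := h fun i => e (g i)
        have h3 : FreeGroup.lift (fun i => e (g i)) w = e (FreeGroup.lift g w) := by
          have : FreeGroup.lift (fun i => e (g i)) = e.toMonoidHom.comp (FreeGroup.lift g) := by
            apply FreeGroup.ext_hom
            intro i
            simp
          rw [this]
          rfl
        rw [h3] at h1
        exact e.injective (by rw [h1, map_one])
      · intro h g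
        have h1 := h fun i => e.symm (g i)
        have h3 : FreeGroup.lift (fun i => e.symm (g i)) w = e.symm (FreeGroup.lift g w) := by
          have : FreeGroup.lift (fun i => e.symm (g i)) =
              e.symm.toMonoidHom.comp (FreeGroup.lift g) := by
            apply FreeGroup.ext_hom
            intro i
            simp
          rw [this]
          rfl
        rw [h3] at h1
        exact e.symm.injective (by rw [h1, map_one])
    obtain ⟨n, hn⟩ := final h2 t ht S (by
      intro s hs
      rw [← key, hS s]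
      exact Subgroup.subset_normalClosure ⟨s, hs, MonoidHom.id _, rfl⟩)
    exact hn ((hS _).mp ((key _).mpr fun f => Lw_law n (FreeGroup.lift f)))

end Pool.Agent.FBZ
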