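import Pool.Agent.FBZ.Defs

set_option autoImplicit false

open scoped Classical

namespace Pool.Agent.FBZ

/-! ### The 2-group `Hn n` -/

abbrev Vn (n : ℕ) : Type := Fin n → ZMod 2

abbrev Mn (n : ℕ) : Type := Fin n → Fin n → ZMod 2

@[ext] structure Hn (n : ℕ) where
  e : Vn n
  w : Mn n

def dot {n : ℕ} (x y : Vn n) : ZMod 2 := ∑ i, x i * y i

def ctr {n : ℕ} (x : Vn n) (w : Mn n) : Vn n := fun j => ∑ i, x i * w i j

theorem dot_add {n : ℕ} (x y z : Vn n) : dot x (y + z) = dot x y + dot x z := by
  simp [dot, mul_add, Finset.sum_add_distrib]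

@[simp] theorem dot_zero {n : ℕ} (x : Vn n) : dot x 0 = 0 := by simp [dot]

@[simp] theorem ctr_zero {n : ℕ} (x : Vn n) : ctr x (0 : Mn n) = 0 := by
  funext j; simp [ctr]

theorem ctr_add {n : ℕ} (x : Vn n) (w w' : Mn n) : ctr x (w + w') = ctr x w + ctr x w' := by
  funext j; simp [ctr, mul_add, Finset.sum_add_distrib]

theorem ctr_add_left {n : ℕ} (x x' : Vn n) (w : Mn n) : ctr (x + x') w = ctr x w + ctr x' w := by
  funext j; simp [ctr, add_mul, Finset.sum_add_distrib]

theorem ctr_outer {n : ℕ} (x e e' : Vn n) :
    ctr x (fun i j => e i * e' j) = dot x e • e' := by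
  funext j
  simp [ctr, dot, Finset.sum_mul, mul_assoc]

theorem vadd_self {n : ℕ} (x : Vn n) : x + x = 0 := by
  funext i; exact Wr.add_self_zmod2 _

theorem madd_self {n : ℕ} (x : Mn n) : x + x = 0 := by
  funext i j; exact Wr.add_self_zmod2 _

namespace Hn

variable {n : ℕ}

instance : Mul (Hn n) := ⟨fun x y => ⟨x.e + y.e, x.w + y.w + fun i j => x.e i * y.e j⟩⟩
instance : One (Hn n) := ⟨⟨0, 0⟩⟩
instance : Inv (Hn n) := ⟨fun x => ⟨x.e, x.w + fun i j => x.e i * x.e j⟩⟩

@[simp] theorem mul_e (x y : Hn n) : (x * y).e = x.e + y.e := rfl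
@[simp] theorem mul_w (x y : Hn n) : (x * y).w = x.w + y.w + fun i j => x.e i * y.e j := rfl
@[simp] theorem one_e : (1 : Hn n).e = 0 := rfl
@[simp] theorem one_w : (1 : Hn n).w = 0 := rfl
@[simp] theorem inv_e (x : Hn n) : (x⁻¹).e = x.e := rfl
@[simp] theorem inv_w (x : Hn n) : (x⁻¹).w = x.w + fun i j => x.e i * x.e j := rfl

instance : Group (Hn n) := Group.ofLeftAxioms
  (by
    intro x y z
    ext i
    · simp [add_assoc]
    · simp only [mul_w, mul_e, Pi.add_apply]
      ring)
  (by
    intro x
    ext i
    · simp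
    · simp)
  (by
    intro x
    ext i
    · simp only [mul_e, inv_e, Pi.add_apply, one_e, Pi.zero_apply]
      exact Wr.add_self_zmod2 _
    · simp only [mul_w, inv_w, inv_e, Pi.add_apply, one_w, Pi.zero_apply]
      have h1 := Wr.add_self_zmod2 (x.w i ‹_›)
      have h2 := Wr.add_self_zmod2 (x.e i * x.e ‹_›)
      linear_combination h1 + h2)

def equivProd (n : ℕ) : Hn n ≃ Vn n × Mn n where
  toFun x := (x.e, x.w)
  invFun p := ⟨p.1, p.2⟩
  left_inv _ := rfl
  right_inv _ := rfl

noncomputable instance : Fintype (Hn n) := Fintype.ofEquiv _ (equivProd n).symm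

theorem ctr_mul (x : Vn n) (g h : Hn n) :
    ctr x (g * h).w = ctr x g.w + ctr x h.w + dot x g.e • h.e := by
  rw [mul_w, ctr_add, ctr_add, ctr_outer]

end Hn

variable (K : Type) [Field K]

/-- the invariant form on `Hn n`, as a kernel -/
noncomputable def phi {n : ℕ} (x y : Hn n) : K :=
  ∑ r : Vn n, if x.e = y.e ∧ ctr r x.w = ctr r y.w then (1 : K) else 0

theorem phi_mul {n : ℕ} (g x y : Hn n) : phi K (g * x) (g * y) = phi K x y := by
  unfold phi
  refine Finset.sum_congr rfl fun r _ => ?_
  congr 1
  simp only [Hn.mul_e, Hn.ctr_mul, add_right_inj, eq_iff_iff]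
  constructor
  · rintro ⟨h1, h2⟩
    refine ⟨h1, ?_⟩
    rw [h1] at h2
    have := add_right_cancel h2
    exact add_left_cancel this
  · rintro ⟨h1, h2⟩
    exact ⟨h1, by rw [h1, h2]⟩

/-- the data of the model -/
noncomputable def mdat (n : ℕ) : Dat ℤ (Hn n × Kˣ) (Hn n → K) K where
  pe :=
    { toFun := fun q =>
        { toFun := fun a x => (q.2 : K) * a (q.1⁻¹ * x)
          map_add' := by intro a b; funext x; simp [mul_add]
          map_smul' := by intro r a; funext x; simp [mul_left_comm] }
      map_one' := by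
        refine LinearMap.ext fun a => ?_
        funext x
        simp
      map_mul' := by
        intro q q'
        refine LinearMap.ext fun a => ?_
        funext x
        simp [mul_assoc] }
  pz :=
    { toFun := fun q =>
        { toFun := fun a => (q.2 : K) ^ 2 * a
          map_add' := by intro a b; simp [mul_add]
          map_smul' := by intro r a; simp [mul_left_comm] }
      map_one' := by
        refine LinearMap.ext fun a => ?_
        simp
      map_mul' := by
        intro q q'
        refine LinearMap.ext fun a => ?_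
        simp [mul_pow, mul_assoc] }
  om := LinearMap.mk₂ ℤ (fun a b => ∑ x : Hn n, ∑ y : Hn n, a x * b y * phi K x y)
    (by intro a a' b; simp [add_mul, Finset.sum_add_distrib])
    (by
      intro r a b
      simp only [Pi.smul_apply, zsmul_eq_mul, Finset.mul_sum]
      refine Finset.sum_congr rfl fun x _ => Finset.sum_congr rfl fun y _ => ?_
      ring)
    (by intro a b b'; simp [mul_add, add_mul, Finset.sum_add_distrib])
    (by
      intro r a b
      simp only [Pi.smul_apply, zsmul_eq_mul, Finset.mul_sum]
      refine Finset.sum_congr rfl fun x _ => Finset.sum_congr rfl fun y _ => ?_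
      ring)
  eqv := by
    intro q a b
    simp only [LinearMap.mk₂_apply, LinearMap.coe_mk, AddHom.coe_mk, MonoidHom.coe_mk,
      OneHom.coe_mk]
    rw [← Equiv.sum_comp (Equiv.mulLeft q.1), Finset.mul_sum]
    refine Finset.sum_congr rfl fun x _ => ?_
    rw [← Equiv.sum_comp (Equiv.mulLeft q.1), Finset.mul_sum]
    refine Finset.sum_congr rfl fun y _ => ?_
    simp only [Equiv.coe_mulLeft, inv_mul_cancel_left, phi_mul]
    ring

/-! ### the ring `ℤ[√2]` and its unit `1 + √2` -/

instance nsq : Zsqrtd.Nonsquare 2 := ⟨by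
  intro n h
  have : n < 2 := by nlinarith
  interval_cases n <;> omega⟩

abbrev OO : Type := ℤ√((2 : ℕ) : ℤ)

def uu : OOˣ where
  val := ⟨1, 1⟩
  inv := ⟨-1, 1⟩
  val_inv := by ext <;> norm_num [Zsqrtd.re_mul, Zsqrtd.im_mul]
  inv_val := by ext <;> norm_num [Zsqrtd.re_mul, Zsqrtd.im_mul]

abbrev CC : Type := Multiplicative ℤ

/-- the powers of the unit -/
def up : CC →* OOˣ := zpowersHom OOˣ uu

/-- the data of the integral representation -/
def gdat : Dat ℤ (Wr CC) (ZMod 2 → OO × OO) (ZMod 2 → OO) where
  pe :=
    { toFun := fun q =>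
        { toFun := fun a m => (up (q.b m) : OO) • a (m + q.s)
          map_add' := by intro a b; funext x; simp [smul_add]
          map_smul' := by intro r a; funext x; exact smul_comm (up (q.b x) : OO) r (a (x + q.s)) }
      map_one' := by
        refine LinearMap.ext fun a => ?_
        funext x
        simp
      map_mul' := by
        intro q q'
        refine LinearMap.ext fun a => ?_
        funext x
        simp [mul_smul, add_assoc] }
  pz :=
    { toFun := fun q =>
        { toFun := fun z m => (up (q.b m) : OO) ^ 2 * z (m + q.s)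
          map_add' := by intro a b; funext x; simp [mul_add]
          map_smul' := by intro r a; funext x; simp [mul_left_comm] }
      map_one' := by
        refine LinearMap.ext fun a => ?_
        funext x
        simp
      map_mul' := by
        intro q q'
        refine LinearMap.ext fun a => ?_
        funext x
        simp [mul_pow, mul_assoc, add_assoc] }
  om := LinearMap.mk₂ ℤ (fun a b => fun m => (a m).1 * (b m).2 - (a m).2 * (b m).1)
    (by intro a a' b; funext m; simp; ring)
    (by intro r a b; funext m; simp; ring)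
    (by intro a b b'; funext m; simp; ring)
    (by intro r a b; funext m; simp; ring)
  eqv := by
    intro q a b
    funext m
    simp only [LinearMap.mk₂_apply, LinearMap.coe_mk, AddHom.coe_mk, MonoidHom.coe_mk,
      OneHom.coe_mk, Prod.smul_fst, Prod.smul_snd, smul_eq_mul]
    ring

end Pool.Agent.FBZ
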