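import Pool.Agent.FBZ.Wrd

set_option autoImplicit false

open scoped Classical

namespace Pool.Agent.FBZ

/-- every subgroup is finitely generated -/
def Noe (G : Type) [Group G] : Prop := ∀ H : Subgroup G, H.FG

theorem Noe.inj {G G' : Type} [Group G] [Group G'] (hG : Noe G) (e : G' →* G)
    (he : Function.Injective e) : Noe G' := by
  intro H
  rw [← Group.fg_iff_subgroup_fg]
  have h1 : (H.map e).FG := hG _
  rw [← Group.fg_iff_subgroup_fg] at h1
  exact Group.fg_of_surjective (f := (H.equivMapOfInjective e he).symm.toMonoidHom)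
    (H.equivMapOfInjective e he).symm.surjective

theorem fg_map {G G' : Type} [Group G] [Group G'] {H : Subgroup G} (hH : H.FG) (f : G →* G') :
    (H.map f).FG := by
  obtain ⟨S, hS⟩ := hH
  refine ⟨S.image f, ?_⟩
  rw [Finset.coe_image, ← MonoidHom.map_closure, hS]

theorem Noe.ext {G Q : Type} [Group G] [Group Q] (f : G →* Q) (hQ : Noe Q) (hK : Noe f.ker) :
    Noe G := by
  intro H
  obtain ⟨S, hS⟩ := hQ (H.map f)
  have hpre : ∀ s ∈ S, ∃ g ∈ H, f g = s := by
    intro s hs
    have : s ∈ H.map f := by rw [← hS]; exact Subgroup.subset_closure hs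
    exact this
  choose! g hg using hpre
  have h1 : ((H.subgroupOf f.ker).map f.ker.subtype).FG := fg_map (hK _) _
  have h2 : (Subgroup.closure ((S.image g : Finset G) : Set G)).FG := ⟨_, rfl⟩
  have h3 : H = Subgroup.closure ((S.image g : Finset G) : Set G) ⊔
      (H.subgroupOf f.ker).map f.ker.subtype := by
    apply le_antisymm
    · intro h hh
      have h4 : f h ∈ Subgroup.closure (S : Set Q) := by rw [hS]; exact ⟨h, hh, rfl⟩
      have h5 : (S : Set Q) = f '' ((S.image g : Finset G) : Set G) := by
        ext s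
        constructor
        · intro hs
          exact ⟨g s, by simpa using ⟨s, hs, rfl⟩, (hg s hs).2⟩
        · rintro ⟨x, hx, rfl⟩
          obtain ⟨s, hs, rfl⟩ := Finset.mem_image.mp (Finset.mem_coe.mp hx)
          rw [(hg s hs).2]
          exact hs
      rw [h5, ← MonoidHom.map_closure] at h4
      obtain ⟨k, hk, hk2⟩ := h4
      have hkH : k ∈ H := by
        have : Subgroup.closure ((S.image g : Finset G) : Set G) ≤ H := by
          rw [Subgroup.closure_le]
          intro x hx
          obtain ⟨s, hs, rfl⟩ := Finset.mem_image.mp (Finset.mem_coe.mp hx)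
          exact (hg s hs).1
        exact this hk
      have h6 : k⁻¹ * h ∈ f.ker := by
        rw [MonoidHom.mem_ker, map_mul, map_inv, hk2, inv_mul_cancel]
      have h7 : k⁻¹ * h ∈ (H.subgroupOf f.ker).map f.ker.subtype :=
        ⟨⟨k⁻¹ * h, h6⟩, H.mul_mem (H.inv_mem hkH) hh, rfl⟩
      have h8 : h = k * (k⁻¹ * h) := by group
      rw [h8]
      exact Subgroup.mul_mem _ (Subgroup.mem_sup_left hk) (Subgroup.mem_sup_right h7)
    · apply sup_le
      · rw [Subgroup.closure_le]
        intro x hx
        obtain ⟨s, hs, rfl⟩ := Finset.mem_image.mp (Finset.mem_coe.mp hx)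
        exact (hg s hs).1
      · rintro _ ⟨x, hx, rfl⟩
        exact hx
  rw [h3]
  exact h2.sup h1

theorem Noe.fin (G : Type) [Group G] [Finite G] : Noe G := by
  intro H
  rw [← Group.fg_iff_subgroup_fg]
  infer_instance

theorem Noe.mod (M : Type) [AddCommGroup M] [IsNoetherian ℤ M] : Noe (Multiplicative M) := by
  intro H
  let P : Submodule ℤ M :=
    { carrier := {m | Multiplicative.ofAdd m ∈ H}
      add_mem' := fun {a b} ha hb => H.mul_mem ha hb
      zero_mem' := H.one_mem
      smul_mem' := fun c x hx => H.zpow_mem hx c }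
  obtain ⟨S, hS⟩ := IsNoetherian.noetherian P
  refine ⟨S.image Multiplicative.ofAdd, ?_⟩
  apply le_antisymm
  · rw [Subgroup.closure_le]
    intro x hx
    obtain ⟨s, hs, rfl⟩ := Finset.mem_image.mp (Finset.mem_coe.mp hx)
    have : s ∈ P := by rw [← hS]; exact Submodule.subset_span hs
    exact this
  · intro x hx
    have h1 : Multiplicative.toAdd x ∈ Submodule.span ℤ (S : Set M) := by
      rw [hS]; exact hx
    have h2 : ∀ m ∈ Submodule.span ℤ (S : Set M), Multiplicative.ofAdd m ∈
        Subgroup.closure ((S.image Multiplicative.ofAdd : Finset (Multiplicative M)) :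
          Set (Multiplicative M)) := by
      intro m hm
      induction hm using Submodule.span_induction with
      | mem x hx =>
        apply Subgroup.subset_closure
        rw [Finset.coe_image]
        exact ⟨x, hx, rfl⟩
      | zero => exact Subgroup.one_mem _
      | add x y _ _ ihx ihy => exact Subgroup.mul_mem _ ihx ihy
      | smul a x _ ih => exact Subgroup.zpow_mem _ ih a
    exact h2 _ h1

section

variable {Q E Z : Type} [Group Q] [AddCommGroup E] [AddCommGroup Z]

/-- the first layer -/
def kerA (D : Dat ℤ Q E Z) : (Con.proj D).ker →* Multiplicative E where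
  toFun x := Multiplicative.ofAdd (x : Con D).a
  map_one' := rfl
  map_mul' x y := by
    have hx : (x : Con D).q = 1 := x.2
    show (x : Con D).a + D.pe (x : Con D).q (y : Con D).a = (x : Con D).a + (y : Con D).a
    rw [hx, map_one, Module.End.one_apply]

/-- the second layer -/
def kerC (D : Dat ℤ Q E Z) : (kerA D).ker →* Multiplicative Z where
  toFun x := Multiplicative.ofAdd (x : Con D).c
  map_one' := rfl
  map_mul' x y := by
    have hx : ((x : (Con.proj D).ker) : Con D).q = 1 := x.1.2
    have hx' : ((x : (Con.proj D).ker) : Con D).a = 0 := x.2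
    show (x : Con D).c + D.pz (x : Con D).q (y : Con D).c +
      D.om (x : Con D).a (D.pe (x : Con D).q (y : Con D).a) = (x : Con D).c + (y : Con D).c
    rw [hx, hx', map_one, Module.End.one_apply, map_zero, LinearMap.zero_apply, add_zero]

theorem kerC_inj (D : Dat ℤ Q E Z) : Function.Injective (kerC D) := by
  intro x y h
  refine Subtype.ext (Subtype.ext (Con.ext ?_ h ?_))
  · have hx : ((x : (Con.proj D).ker) : Con D).a = 0 := x.2
    have hy : ((y : (Con.proj D).ker) : Con D).a = 0 := y.2
    rw [hx, hy]
  · have hx : ((x : (Con.proj D).ker) : Con D).q = 1 := x.1.2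
    have hy : ((y : (Con.proj D).ker) : Con D).q = 1 := y.1.2
    rw [hx, hy]

theorem Noe.con [IsNoetherian ℤ E] [IsNoetherian ℤ Z] (D : Dat ℤ Q E Z) (hQ : Noe Q) :
    Noe (Con D) :=
  Noe.ext (Con.proj D) hQ (Noe.ext (kerA D) (Noe.mod E) (Noe.inj (Noe.mod Z) (kerC D) (kerC_inj D)))

theorem solv_of {G Q : Type} [Group G] [Group Q] (f : G →* Q) (hQ : Group.IsSolvable Q)
    (hK : Group.IsSolvable f.ker) : Group.IsSolvable G :=
  Group.isSolvable_of_ker_le_range f.ker.subtype f (by simp)

theorem solv_con (D : Dat ℤ Q E Z) (hQ : Group.IsSolvable Q) : Group.IsSolvable (Con D) := by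
  refine solv_of (Con.proj D) hQ (solv_of (kerA D) (Group.isSolvable_of_comm mul_comm) ?_)
  apply Group.isSolvable_of_comm
  intro a b
  apply kerC_inj D
  rw [map_mul, map_mul, mul_comm]

end

/-! ### the big group -/

def wrs : Wr CC →* Multiplicative (ZMod 2) where
  toFun x := Multiplicative.ofAdd x.s
  map_one' := rfl
  map_mul' _ _ := rfl

theorem wrs_ker (x : wrs.ker) : (x : Wr CC).s = 0 := x.2

def wrb : wrs.ker →* Multiplicative (ZMod 2 → ℤ) where
  toFun x := Multiplicative.ofAdd fun m => Multiplicative.toAdd ((x : Wr CC).b m)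
  map_one' := rfl
  map_mul' x y := by
    refine funext fun m => ?_
    show Multiplicative.toAdd ((x : Wr CC).b m * (y : Wr CC).b (m + (x : Wr CC).s)) =
      Multiplicative.toAdd ((x : Wr CC).b m) + Multiplicative.toAdd ((y : Wr CC).b m)
    rw [wrs_ker, add_zero]
    rfl

theorem wrb_inj : Function.Injective wrb := by
  intro x y h
  refine Subtype.ext (Wr.ext (funext fun m => ?_) ?_)
  · exact congrFun h m
  · rw [wrs_ker, wrs_ker]

theorem Noe.wr : Noe (Wr CC) :=
  Noe.ext wrs (Noe.fin _) (Noe.inj (Noe.mod (ZMod 2 → ℤ)) wrb wrb_inj)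

theorem solv_wr : Group.IsSolvable (Wr CC) := by
  refine solv_of wrs (Group.isSolvable_of_comm mul_comm) ?_
  apply Group.isSolvable_of_comm
  intro a b
  apply wrb_inj
  rw [map_mul, map_mul, mul_comm]

instance noeOO : IsNoetherian ℤ OO := by
  let f : OO →ₗ[ℤ] ℤ × ℤ :=
    { toFun := fun x => (x.re, x.im)
      map_add' := by intro x y; rfl
      map_smul' := by intro r x; simp }
  refine isNoetherian_of_injective f ?_
  intro x y h
  exact Zsqrtd.ext (congrArg Prod.fst h) (congrArg Prod.snd h)

theorem Noe.prod {G P : Type} [Group G] [Group P] (hG : Noe G) (hP : Noe P) : Noe (G × P) := by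
  refine Noe.ext (MonoidHom.snd G P) hP (Noe.inj hG ((MonoidHom.fst G P).comp
    (MonoidHom.snd G P).ker.subtype) ?_)
  intro x y h
  refine Subtype.ext (Prod.ext h ?_)
  have hx : (x : G × P).2 = 1 := x.2
  have hy : (y : G × P).2 = 1 := y.2
  rw [hx, hy]

theorem solv_prod {G P : Type} [Group G] [Group P] (hG : Group.IsSolvable G)
    (hP : Group.IsSolvable P) : Group.IsSolvable (G × P) := inferInstance

theorem noe_GG : Noe GG :=
  Noe.con _ (Noe.prod (Noe.con _ Noe.wr) (Noe.fin _))

theorem solv_GG : Group.IsSolvable GG :=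
  solv_con _ (solv_prod (solv_con _ solv_wr) (solv_con _ (Group.isSolvable_of_comm mul_comm)))

end Pool.Agent.FBZ
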