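import Pool.Agent.FBZ.Univ

set_option autoImplicit false

open scoped Classical

namespace Pool.Agent.FBZ

variable {K : Type} [Field K] {X : Type}

def Om (x y : ℤ × ℤ) : ℤ := x.1 * y.2 - x.2 * y.1

/-- the kernel attached to a homomorphism to `Wr B` -/
noncomputable def kr {B M : Type} [CommGroup B] [AddCommGroup M] (Ψ : FreeGroup X →* Wr B)
    (a : X → ZMod 2 → ℤ × ℤ) (f : B → M) (p : (FreeGroup X × X) × (FreeGroup X × X)) : M :=
  Om (a p.1.2 (Ψ p.1.1).s) (a p.2.2 (Ψ p.2.1).s) • f ((Ψ p.1.1).b 0 * (Ψ p.2.1).b 0)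

def RG (Y : UZ2 ℤ X) : Prop :=
  ∀ (Ψ : FreeGroup X →* Wr CC) (a : X → ZMod 2 → ℤ × ℤ),
    Finsupp.linearCombination ℤ (kr Ψ a fun x => (up x : OO)) Y = 0

def RP (K : Type) [Field K] (Y : UZ2 ℤ X) : Prop :=
  ∀ (B : Type) [CommGroup B] (Ψ : FreeGroup X →* Wr B) (a : X → ZMod 2 → ℤ × ℤ) (f : B → K),
    Finsupp.linearCombination ℤ (kr Ψ a f) Y = 0

/-- functoriality of `Wr` -/
def Wr.map {B B' : Type} [CommGroup B] [CommGroup B'] (L : B →* B') : Wr B →* Wr B' where
  toFun x := ⟨fun m => L (x.b m), x.s⟩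
  map_one' := by ext m <;> simp
  map_mul' x y := by ext m <;> simp

theorem up_one (c : CC) (h : up c = 1) : c = 1 := by
  have h1 : ((uu ^ (Multiplicative.toAdd c) : OOˣ)) = 1 := h
  have h02 : (0 : ℤ) ≤ ((2 : ℕ) : ℤ) := by norm_num
  let tr : OO →+* ℝ := Zsqrtd.toReal h02
  have h2 := congrArg (Units.map (tr : OO →* ℝ)) h1
  rw [map_zpow, map_one] at h2
  have h3 := congrArg (fun z : ℝˣ => (z : ℝ)) h2
  simp only [Units.val_zpow_eq_zpow_val, Units.val_one, Units.coe_map] at h3
  have h4 : (tr : OO →* ℝ) (uu : OO) = 1 + Real.sqrt 2 := by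
    show Zsqrtd.toReal h02 (⟨1, 1⟩ : OO) = _
    simp [Zsqrtd.toReal]
  rw [h4] at h3
  have h5 : (0 : ℝ) < Real.sqrt 2 := Real.sqrt_pos.mpr (by norm_num)
  have h6 : Multiplicative.toAdd c = 0 := by
    have := zpow_right_injective₀ (a := 1 + Real.sqrt 2) (by linarith) (by linarith)
    apply this
    simpa using h3
  exact h6

abbrev Ch (ι : Type) : Type := Multiplicative (ι →₀ ℤ) →* CC

theorem ded {ι : Type} (A : Multiplicative (ι →₀ ℤ) →₀ ℤ)
    (h : ∀ χ : Multiplicative (ι →₀ ℤ) →* CC,
      Finsupp.linearCombination ℤ (fun x => (up (χ x) : OO)) A = 0) : A = 0 := by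
  let ev : Multiplicative (ι →₀ ℤ) → (Ch ι →* OO) := fun x =>
    { toFun := fun χ => (up (χ x) : OO)
      map_one' := by
        rw [MonoidHom.one_apply, map_one, Units.val_one]
      map_mul' := by
        intro a b
        rw [MonoidHom.mul_apply, map_mul, Units.val_mul] }
  have hinj : Function.Injective ev := by
    intro x y hxy
    have hc : ∀ χ : Ch ι, χ x = χ y := by
      intro χ
      have := DFunLike.congr_fun hxy χ
      have h1 : up (χ x) = up (χ y) := Units.ext this
      have h2 : up (χ x * (χ y)⁻¹) = 1 := by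
        rw [map_mul, map_inv, h1, mul_inv_cancel]
      exact mul_inv_eq_one.mp (up_one _ h2)
    have : Multiplicative.toAdd x = Multiplicative.toAdd y := by
      ext i
      let χ : Ch ι := AddMonoidHom.toMultiplicative (Finsupp.applyAddHom i)
      exact hc χ
    exact this
  have hli := (linearIndependent_monoidHom (Ch ι) OO).comp ev hinj
  have hA : A.mapRange (Int.cast : ℤ → OO) Int.cast_zero = 0 := by
    refine (linearIndependent_iff.mp hli) _ ?_
    funext χ
    have := h χ
    rw [Finsupp.linearCombination_apply] at this ⊢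
    rw [Finsupp.sum_mapRange_index (by intro i; simp)]
    rw [Finsupp.sum] at this ⊢
    rw [Finset.sum_apply]
    simpa [ev] using this
  ext x
  have := DFunLike.congr_fun hA x
  simpa using this

theorem RP_of_RG (Y : UZ2 ℤ X) (hY : RG Y) : RP K Y := by
  intro B _ Ψ a f
  let L : Multiplicative (X × ZMod 2 →₀ ℤ) →* B := AddMonoidHom.toMultiplicativeLeft
    (Finsupp.liftAddHom fun i : X × ZMod 2 =>
      (zmultiplesHom (Additive B)) (Additive.ofMul ((Ψ (FreeGroup.of i.1)).b i.2)))
  have hL : ∀ i : X × ZMod 2, L (Multiplicative.ofAdd (Finsupp.single i 1)) =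
      (Ψ (FreeGroup.of i.1)).b i.2 := by
    intro i
    have : (Finsupp.liftAddHom fun i : X × ZMod 2 =>
      (zmultiplesHom (Additive B)) (Additive.ofMul ((Ψ (FreeGroup.of i.1)).b i.2)))
        (Finsupp.single i 1) = Additive.ofMul ((Ψ (FreeGroup.of i.1)).b i.2) := by
      simp
    exact congrArg Additive.toMul this
  let U : FreeGroup X →* Wr (Multiplicative (X × ZMod 2 →₀ ℤ)) :=
    FreeGroup.lift fun x => ⟨fun m => Multiplicative.ofAdd (Finsupp.single (x, m) 1),
      (Ψ (FreeGroup.of x)).s⟩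
  have hU : (Wr.map L).comp U = Ψ := by
    ext x
    · rename_i m
      simp [Wr.map, U, hL]
    · simp [Wr.map, U]
  let F : ((FreeGroup X × X) × (FreeGroup X × X)) → (Multiplicative (X × ZMod 2 →₀ ℤ) →₀ ℤ) :=
    fun p => Finsupp.single ((U p.1.1).b 0 * (U p.2.1).b 0)
      (Om (a p.1.2 (U p.1.1).s) (a p.2.2 (U p.2.1).s))
  have hF : ∀ {M : Type} [AddCommGroup M] (g : Multiplicative (X × ZMod 2 →₀ ℤ) → M),
      Finsupp.linearCombination ℤ g (Finsupp.linearCombination ℤ F Y) =
        Finsupp.linearCombination ℤ (kr U a g) Y := by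
    intro M _ g
    rw [Finsupp.apply_linearCombination]
    congr 2
    funext p
    simp only [F, kr, Function.comp_apply, Finsupp.linearCombination_single]
  have hA : Finsupp.linearCombination ℤ F Y = 0 := by
    refine ded _ fun χ => ?_
    have h5 : Finsupp.linearCombination ℤ (kr U a (fun x => (up (χ x) : OO))) Y = 0 := by
      have h6 := hY ((Wr.map χ).comp U) a
      have h7 : kr ((Wr.map χ).comp U) a (fun x => (up x : OO)) =
          kr U a (fun x => (up (χ x) : OO)) := by
        funext p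
        simp [kr, Wr.map]
      rw [h7] at h6
      exact h6
    exact (hF (M := OO) _).trans h5
  have h0 := hF (fun x => f (L x))
  rw [hA, map_zero] at h0
  rw [h0]
  congr 2
  funext p
  simp only [kr, ← hU, MonoidHom.comp_apply, Wr.map, MonoidHom.coe_mk, OneHom.coe_mk, map_mul]

end Pool.Agent.FBZ
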