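import Pool.Agent.FBZ.Mdl

set_option autoImplicit false

open scoped Classical

namespace Pool.Agent.FBZ

/-- semidirect product data -/
def sdat {Q A : Type} [Group Q] [AddCommGroup A] (ρ : Q →* Module.End ℤ A) : Dat ℤ Q A Unit where
  pe := ρ
  pz := 1
  om := 0
  eqv := by intro q x y; rfl

/-- integral identities of a representation -/
def IdR {Q A : Type} [Group Q] [AddCommGroup A] (ρ : Q →* Module.End ℤ A)
    (u : FreeGroup ℕ →₀ ℤ) : Prop :=
  ∀ (φ : FreeGroup ℕ →* Q) (v : A), (u.sum fun k r => r • ρ (φ k) v) = 0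

theorem univ_a {Q E Z X : Type} [Group Q] [AddCommGroup E]
    [AddCommGroup Z] (D : Dat ℤ Q E Z) (f : FreeGroup X →* Con D) (k : FreeGroup X) :
    (f k).a = LE D f (Ups ℤ X k).a := by
  conv_lhs => rw [← umap_Ups D f]
  rfl

theorem transfer {Q Q' A A' : Type} [Group Q] [AddCommGroup A] [Group Q'] [AddCommGroup A']
    (ρ : Q →* Module.End ℤ A) (ρ' : Q' →* Module.End ℤ A') (ψ : FreeGroup ℕ →* Q')
    (h : ∀ u, IdR ρ u → ∀ v, (u.sum fun k r => r • ρ' (ψ k) v) = 0)
    (w : FreeGroup ℕ) (hw : ∀ f : FreeGroup ℕ →* Con (sdat ρ), f w = 1)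
    (f' : FreeGroup ℕ →* Con (sdat ρ')) (hf' : ∀ k, (f' k).q = ψ k) :
    (f' w).a = 0 ∧ ρ' (ψ w) = 1 := by
  constructor
  · let aU : UE ℤ ℕ := (Ups ℤ ℕ w).a
    let F : ℕ → (FreeGroup ℕ × ℕ) → (FreeGroup ℕ →₀ ℤ) := fun x p =>
      if p.2 = x then Finsupp.single p.1 1 else 0
    let u : ℕ → FreeGroup ℕ →₀ ℤ := fun x => Finsupp.linearCombination ℤ (F x) aU
    have hu : ∀ {M : Type} [AddCommGroup M] (x : ℕ) (g : FreeGroup ℕ → M),
        ((u x).sum fun k r => r • g k) =
          Finsupp.linearCombination ℤ (fun p : FreeGroup ℕ × ℕ => if p.2 = x then g p.1 else 0)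
            aU := by
      intro M _ x g
      have : ((u x).sum fun k r => r • g k) = Finsupp.linearCombination ℤ g (u x) := by
        rw [Finsupp.linearCombination_apply]
      rw [this, Finsupp.apply_linearCombination]
      congr 2
      funext p
      simp only [F, Function.comp_apply]
      split_ifs <;> simp
    have hI : ∀ x, IdR ρ (u x) := by
      intro x φ v
      rw [hu x (fun k => ρ (φ k) v)]
      let f : FreeGroup ℕ →* Con (sdat ρ) :=
        FreeGroup.lift fun i => ⟨if i = x then v else 0, (), φ (FreeGroup.of i)⟩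
      have hq : ∀ g, (f g).q = φ g := by
        intro g
        have : (Con.proj (sdat ρ)).comp f = φ := by
          apply FreeGroup.ext_hom
          intro y
          simp [f, Con.proj]
        exact DFunLike.congr_fun this g
      have ha : ∀ y, (f (FreeGroup.of y)).a = if y = x then v else 0 := by intro y; simp [f]
      have h1 := univ_a (sdat ρ) f w
      rw [hw f] at h1
      refine Eq.trans ?_ h1.symm
      unfold LE
      congr 2
      funext p
      rw [hq, ha]
      show _ = ρ (φ p.1) (if p.2 = x then v else 0)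
      split_ifs
      · rfl
      · rw [map_zero]
    rw [univ_a (sdat ρ') f' w]
    unfold LE
    have h2 : ∀ p ∈ (Ups ℤ ℕ w).a.support, (sdat ρ').pe (f' p.1).q (f' (FreeGroup.of p.2)).a =
        ∑ x ∈ (Ups ℤ ℕ w).a.support.image Prod.snd,
          if p.2 = x then ρ' (ψ p.1) (f' (FreeGroup.of x)).a else 0 := by
      intro p hp
      rw [Finset.sum_ite_eq, if_pos (Finset.mem_image_of_mem _ hp), hf']
      rfl
    rw [Finsupp.linearCombination_apply, Finsupp.sum]
    rw [Finset.sum_congr rfl fun p hp => by rw [h2 p hp]]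
    simp only [Finset.smul_sum]
    rw [Finset.sum_comm]
    refine Finset.sum_eq_zero fun x _ => ?_
    have := h (u x) (hI x) (f' (FreeGroup.of x)).a
    rw [hu x (fun k => ρ' (ψ k) (f' (FreeGroup.of x)).a), Finsupp.linearCombination_apply,
      Finsupp.sum] at this
    exact this
  · let u : FreeGroup ℕ →₀ ℤ := Finsupp.single w 1 - Finsupp.single 1 1
    have hI : IdR ρ u := by
      intro φ v
      let f : FreeGroup ℕ →* Con (sdat ρ) :=
        FreeGroup.lift fun i => ⟨0, (), φ (FreeGroup.of i)⟩
      have hq : (f w).q = φ w := by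
        have : (Con.proj (sdat ρ)).comp f = φ := by
          apply FreeGroup.ext_hom
          intro y
          simp [f, Con.proj]
        exact DFunLike.congr_fun this w
      rw [hw f] at hq
      have hq' : φ w = 1 := hq.symm
      rw [Finsupp.sum_sub_index (by intro a b c; rw [sub_smul])]
      simp [hq']
    refine LinearMap.ext fun v => ?_
    have h1 := h u hI v
    rw [Finsupp.sum_sub_index (by intro a b c; rw [sub_smul])] at h1
    simp only [Finsupp.sum_single_index, zero_smul, one_smul, map_one, Module.End.one_apply] at h1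
    rw [Module.End.one_apply]
    exact sub_eq_zero.mp h1

/-- the representation on functions on a second group -/
def fdat {G P V : Type} [Group G] [Group P] [AddCommGroup V] (ρ : G →* Module.End ℤ V) :
    G × P →* Module.End ℤ (P → V) where
  toFun x :=
    { toFun := fun f y => ρ x.1 (f (x.2⁻¹ * y))
      map_add' := by intro f f'; funext y; simp
      map_smul' := by intro r f; funext y; simp }
  map_one' := by
    refine LinearMap.ext fun f => ?_
    funext y
    simp
  map_mul' x x' := by
    refine LinearMap.ext fun f => ?_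
    funext y
    simp [mul_assoc]

theorem fdat_apply {G P V : Type} [Group G] [Group P] [AddCommGroup V] (ρ : G →* Module.End ℤ V)
    (x : G × P) (f : P → V) (y : P) : fdat ρ x f y = ρ x.1 (f (x.2⁻¹ * y)) := rfl

theorem prodId {G G' P V V' : Type} [Group G] [Group G'] [Group P] [Finite P] [AddCommGroup V]
    [AddCommGroup V'] (ρ : G →* Module.End ℤ V) (ρ' : G' →* Module.End ℤ V')
    (ψ : FreeGroup ℕ →* G' × P)
    (h : ∀ u, IdR ρ u → ∀ v, (u.sum fun k r => r • ρ' (ψ k).1 v) = 0) :
    ∀ u, IdR (fdat (P := P) ρ) u → ∀ f : P → V', (u.sum fun k r => r • fdat ρ' (ψ k) f) = 0 := by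
  intro u hu f
  letI : Fintype P := Fintype.ofFinite P
  funext y
  let up : P → FreeGroup ℕ →₀ ℤ := fun p => u.filter fun k => (ψ k).2 = p
  have hup : ∀ p, IdR ρ (up p) := by
    intro p φ v
    have h1 := hu (φ.prod ((MonoidHom.snd G' P).comp ψ)) (Pi.single 1 v)
    have h2 := congrFun h1 p
    rw [Finsupp.sum, Finset.sum_apply, Pi.zero_apply] at h2
    simp only [Pi.smul_apply, fdat_apply, MonoidHom.prod_apply, MonoidHom.comp_apply,
      MonoidHom.coe_snd] at h2
    rw [Finsupp.sum, Finsupp.support_filter, Finset.sum_filter]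
    refine Eq.trans ?_ h2
    refine Finset.sum_congr rfl fun k _ => ?_
    by_cases hk : (ψ k).2 = p
    · rw [if_pos hk, Finsupp.filter_apply, if_pos hk, hk, inv_mul_cancel, Pi.single_eq_same]
    · have : ((ψ k).2)⁻¹ * p ≠ 1 := by
        intro h3
        exact hk (inv_mul_eq_one.mp h3)
      rw [if_neg hk, Pi.single_eq_of_ne this, map_zero, smul_zero]
  rw [Finsupp.sum, Finset.sum_apply, Pi.zero_apply]
  simp only [Pi.smul_apply, fdat_apply]
  have h3 : ∀ k ∈ u.support, u k • ρ' (ψ k).1 (f ((ψ k).2⁻¹ * y)) =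
      ∑ p : P, if (ψ k).2 = p then u k • ρ' (ψ k).1 (f (p⁻¹ * y)) else 0 := by
    intro k _
    rw [Finset.sum_ite_eq, if_pos (Finset.mem_univ _)]
  rw [Finset.sum_congr rfl h3, Finset.sum_comm]
  refine Finset.sum_eq_zero fun p _ => ?_
  have h4 := h (up p) (hup p) (f (p⁻¹ * y))
  rw [Finsupp.sum, Finsupp.support_filter, Finset.sum_filter] at h4
  refine Eq.trans ?_ h4
  refine Finset.sum_congr rfl fun k _ => ?_
  by_cases hk : (ψ k).2 = p
  · rw [if_pos hk, if_pos hk, Finsupp.filter_apply, if_pos hk]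
  · rw [if_neg hk, if_neg hk]

end Pool.Agent.FBZ
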