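import Pool.Agent.FBZ.Mod

set_option autoImplicit false

open scoped Classical

namespace Pool.Agent.FBZ

variable (K : Type) [CommRing K]

abbrev UE (X : Type) : Type := (FreeGroup X × X) →₀ K
abbrev UZ2 (X : Type) : Type := ((FreeGroup X × X) × (FreeGroup X × X)) →₀ K
abbrev UZ (X : Type) : Type := UZ2 K X × UE K X

/-- left translation on `UE` -/
noncomputable def upe (X : Type) (g : FreeGroup X) : UE K X →ₗ[K] UE K X :=
  Finsupp.linearCombination K fun p => Finsupp.single (g * p.1, p.2) (1 : K)

noncomputable def upz2 (X : Type) (g : FreeGroup X) : UZ2 K X →ₗ[K] UZ2 K X :=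
  Finsupp.linearCombination K
    fun p => Finsupp.single ((g * p.1.1, p.1.2), (g * p.2.1, p.2.2)) (1 : K)

noncomputable def uom (X : Type) : UE K X →ₗ[K] UE K X →ₗ[K] UZ2 K X :=
  Finsupp.linearCombination K fun p =>
    (Finsupp.linearCombination K fun p' => Finsupp.single (p, p') (1 : K) :
      UE K X →ₗ[K] UZ2 K X)

@[simp] theorem upe_single (X : Type) (g : FreeGroup X) (p : FreeGroup X × X) (r : K) :
    upe K X g (Finsupp.single p r) = Finsupp.single (g * p.1, p.2) r := by
  simp [upe]

@[simp] theorem upz2_single (X : Type) (g : FreeGroup X)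
    (p : (FreeGroup X × X) × (FreeGroup X × X)) (r : K) :
    upz2 K X g (Finsupp.single p r) =
      Finsupp.single ((g * p.1.1, p.1.2), (g * p.2.1, p.2.2)) r := by
  simp [upz2]

@[simp] theorem uom_single (X : Type) (p p' : FreeGroup X × X) (r r' : K) :
    uom K X (Finsupp.single p r) (Finsupp.single p' r') = Finsupp.single (p, p') (r * r') := by
  simp [uom]

/-- the universal data -/
noncomputable def udat (X : Type) : Dat K (FreeGroup X) (UE K X) (UZ K X) where
  pe :=
    { toFun := upe K X
      map_one' := by
        refine Finsupp.lhom_ext fun p r => ?_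
        simp
      map_mul' := by
        intro g g'
        refine Finsupp.lhom_ext fun p r => ?_
        simp [mul_assoc] }
  pz :=
    { toFun := fun g => LinearMap.prodMap (upz2 K X g) (upe K X g)
      map_one' := by
        refine LinearMap.prod_ext (Finsupp.lhom_ext fun p r => ?_) (Finsupp.lhom_ext fun p r => ?_)
        · simp
        · simp
      map_mul' := by
        intro g g'
        refine LinearMap.prod_ext (Finsupp.lhom_ext fun p r => ?_) (Finsupp.lhom_ext fun p r => ?_)
        · simp [mul_assoc]
        · simp [mul_assoc] }
  om := (uom K X).compr₂ (LinearMap.inl K (UZ2 K X) (UE K X))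
  eqv := by
    intro g x y
    have key : uom K X (upe K X g x) (upe K X g y) = upz2 K X g (uom K X x y) := by
      induction x using Finsupp.induction_linear with
      | zero => simp
      | add x x' hx hx' => simp only [map_add, LinearMap.add_apply, hx, hx']
      | single p r =>
        induction y using Finsupp.induction_linear with
        | zero => simp
        | add x x' hx hx' => simp only [map_add, hx, hx']
        | single p' r' => simp [-Finsupp.single_mul]
    simp [key]

theorem udat_pe (X : Type) (g : FreeGroup X) (v : UE K X) : (udat K X).pe g v = upe K X g v := rfl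

theorem udat_pz (X : Type) (g : FreeGroup X) (v : UZ K X) :
    (udat K X).pz g v = (upz2 K X g v.1, upe K X g v.2) := rfl

theorem udat_om (X : Type) (v v' : UE K X) : (udat K X).om v v' = (uom K X v v', 0) := rfl

variable {K}
variable {Q E Z X : Type} [Group Q] [AddCommGroup E] [Module K E]
    [AddCommGroup Z] [Module K Z]

/-- the linear maps induced by the images of the generators -/
noncomputable def LE (D : Dat K Q E Z) (f : FreeGroup X →* Con D) : UE K X →ₗ[K] E :=
  Finsupp.linearCombination K fun p => D.pe (f p.1).q (f (FreeGroup.of p.2)).a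

noncomputable def LZ2 (D : Dat K Q E Z) (f : FreeGroup X →* Con D) : UZ2 K X →ₗ[K] Z :=
  Finsupp.linearCombination K fun p =>
    D.om (D.pe (f p.1.1).q (f (FreeGroup.of p.1.2)).a)
      (D.pe (f p.2.1).q (f (FreeGroup.of p.2.2)).a)

noncomputable def LZ1 (D : Dat K Q E Z) (f : FreeGroup X →* Con D) : UE K X →ₗ[K] Z :=
  Finsupp.linearCombination K fun p => D.pz (f p.1).q (f (FreeGroup.of p.2)).c

noncomputable def LZ (D : Dat K Q E Z) (f : FreeGroup X →* Con D) : UZ K X →ₗ[K] Z :=
  (LZ2 D f).coprod (LZ1 D f)

/-- the hom of the universal group to `Con D` induced by `f` -/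
noncomputable def umap (D : Dat K Q E Z) (f : FreeGroup X →* Con D) :
    Con (udat K X) →* Con D where
  toFun x := ⟨LE D f x.a, LZ D f x.c, (f x.q).q⟩
  map_one' := by
    ext <;> simp
  map_mul' := by
    intro x y
    have hE : ∀ (g : FreeGroup X) (v : UE K X), LE D f (upe K X g v) = D.pe (f g).q (LE D f v) := by
      intro g v
      induction v using Finsupp.induction_linear with
      | zero => simp
      | add x x' hx hx' => simp only [map_add, hx, hx']
      | single p r => simp [LE]
    have hZ1 : ∀ (g : FreeGroup X) (v : UE K X),
        LZ1 D f (upe K X g v) = D.pz (f g).q (LZ1 D f v) := by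
      intro g v
      induction v using Finsupp.induction_linear with
      | zero => simp
      | add x x' hx hx' => simp only [map_add, hx, hx']
      | single p r => simp [LZ1]
    have hZ2 : ∀ (g : FreeGroup X) (v : UZ2 K X),
        LZ2 D f (upz2 K X g v) = D.pz (f g).q (LZ2 D f v) := by
      intro g v
      induction v using Finsupp.induction_linear with
      | zero => simp
      | add x x' hx hx' => simp only [map_add, hx, hx']
      | single p r => simp [LZ2, D.eqv]
    have hom : ∀ (v v' : UE K X), LZ2 D f (uom K X v v') = D.om (LE D f v) (LE D f v') := by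
      intro v v'
      induction v using Finsupp.induction_linear with
      | zero => simp
      | add x x' hx hx' => simp only [map_add, LinearMap.add_apply, hx, hx']
      | single p r =>
        induction v' using Finsupp.induction_linear with
        | zero => simp
        | add x x' hx hx' => simp only [map_add, hx, hx']
        | single p' r' =>
          rw [uom_single]
          simp only [LZ2, LE, Finsupp.linearCombination_single, map_smul, LinearMap.smul_apply,
            mul_smul]
          rw [smul_comm]
    ext
    · simp only [Con.mul_a, udat_pe, map_add, hE]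
    · simp only [Con.mul_c, udat_pe, udat_pz, udat_om, LZ, LinearMap.coprod_apply, Prod.fst_add,
        Prod.snd_add, map_add, hE, hZ1, hZ2, hom, map_zero]
      abel
    · simp

/-- the universal homomorphism -/
noncomputable def Ups (K : Type) [CommRing K] (X : Type) : FreeGroup X →* Con (udat K X) :=
  FreeGroup.lift fun x => ⟨Finsupp.single (1, x) 1, (0, Finsupp.single (1, x) 1), FreeGroup.of x⟩

theorem umap_Ups (D : Dat K Q E Z) (f : FreeGroup X →* Con D) :
    (umap D f).comp (Ups K X) = f := by
  ext x
  · simp [umap, Ups, LE]
  · simp [umap, Ups, LZ, LZ1]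
  · simp [umap, Ups]

theorem univ_c (D : Dat K Q E Z) (f : FreeGroup X →* Con D) (k : FreeGroup X) :
    (f k).c = LZ2 D f (Ups K X k).c.1 + LZ1 D f (Ups K X k).c.2 := by
  conv_lhs => rw [← umap_Ups D f]
  simp [umap, LZ]

end Pool.Agent.FBZ
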