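import Pool.Agent.FBZ.WWz

set_option autoImplicit false

open scoped Classical

namespace Pool.Agent.FBZ

/-- commutator -/
def cm {G : Type} [Group G] (x y : G) : G := x * y * x⁻¹ * y⁻¹

theorem map_cm {G H : Type} [Group G] [Group H] (f : G →* H) (x y : G) :
    f (cm x y) = cm (f x) (f y) := by simp [cm]

theorem cm_eq_one {G : Type} [Group G] {x y : G} (h : x * y = y * x) : cm x y = 1 := by
  unfold cm; rw [h]; group

theorem cm_q {Q E Z : Type} [Group Q] [AddCommGroup E] [AddCommGroup Z] {D : Dat ℤ Q E Z}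
    (x y : Con D) : (cm x y).q = cm x.q y.q := rfl

theorem cm_a {Q E Z : Type} [Group Q] [AddCommGroup E] [AddCommGroup Z] {D : Dat ℤ Q E Z}
    (x y : Con D) (hx : x.a = 0) (hq : x.q * y.q = y.q * x.q) :
    (cm x y).a = D.pe x.q y.a - y.a := by
  have hq' : x.q * y.q * x.q⁻¹ * y.q⁻¹ = 1 := cm_eq_one hq
  simp only [cm, Con.mul_a, Con.mul_q, Con.inv_a, Con.inv_q, hx, map_zero, neg_zero, add_zero,
    zero_add, map_neg]
  rw [← Module.End.mul_apply, ← map_mul, hq', map_one, Module.End.one_apply]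
  abel

theorem cm_a1 {Q E Z : Type} [Group Q] [AddCommGroup E] [AddCommGroup Z] {D : Dat ℤ Q E Z}
    (x y : Con D) (hx : x.q = 1) :
    (cm x y).a = x.a - D.pe y.q x.a := by
  simp only [cm, Con.mul_a, Con.mul_q, Con.inv_a, Con.inv_q, hx, map_one, inv_one, one_mul,
    mul_one, map_neg, Module.End.one_apply]
  rw [← Module.End.mul_apply (D.pe y.q), ← map_mul, mul_inv_cancel, map_one, Module.End.one_apply]
  abel

/-! ### the auxiliary finite group -/

/-- multiplication by a unit -/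
def prho : (ZMod 5)ˣ →* Module.End ℤ (ZMod 5) where
  toFun s :=
    { toFun := fun x => (s : ZMod 5) * x
      map_add' := by intro x y; exact mul_add _ _ _
      map_smul' := by intro r x; simp [mul_left_comm] }
  map_one' := by
    refine LinearMap.ext fun x => ?_
    simp
  map_mul' s s' := by
    refine LinearMap.ext fun x => ?_
    simp [mul_assoc]

/-- the affine group of the field with five elements -/
abbrev PP : Type := Con (sdat prho)

instance : Finite PP := by
  let f : PP → ZMod 5 × (ZMod 5)ˣ := fun x => (x.a, x.q)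
  refine Finite.of_injective f ?_
  intro x y h
  exact Con.ext (congrArg Prod.fst h) (Subsingleton.elim _ _) (congrArg Prod.snd h)

theorem pp_comm (x y : PP) (hx : x.q = 1) (hy : y.q = 1) : x * y = y * x := by
  refine Con.ext ?_ (Subsingleton.elim _ _) ?_
  · rw [Con.mul_a, Con.mul_a, hx, hy, map_one]
    exact add_comm _ _
  · rw [Con.mul_q, Con.mul_q, hx, hy]

theorem pp_cm_q (x y : PP) : (cm x y).q = 1 := by
  rw [cm_q]
  exact cm_eq_one (mul_comm _ _)

/-! ### the words -/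

noncomputable def ee : ℕ := 2 * Nat.card PP

def bw1 : FreeGroup ℕ := cm ((FreeGroup.of 0) ^ 2) ((FreeGroup.of 1) ^ 2)
def bw2 : FreeGroup ℕ := cm ((FreeGroup.of 2) ^ 2) ((FreeGroup.of 3) ^ 2)
def vw : FreeGroup ℕ := cm (cm bw2 bw1) bw1
noncomputable def aw : FreeGroup ℕ := cm ((FreeGroup.of 4) ^ ee) ((FreeGroup.of 5) ^ ee)
def cw : ℕ → FreeGroup ℕ
  | 0 => 1
  | m + 1 => cw m * (FreeGroup.of (m + 6)) ^ 2
noncomputable def Lw (n : ℕ) : FreeGroup ℕ := cm (cm vw aw) (cw n * aw * (cw n)⁻¹)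

/-! ### the law holds in the big group -/

theorem wr_comm_of {B : Type} [CommGroup B] (x y : Wr B) (hx : x.s = 0) (hy : y.s = 0) :
    x * y = y * x := by
  refine Wr.ext (funext fun m => ?_) ?_
  · simp [hx, hy, mul_comm]
  · simp [hx, hy]

theorem wr_sq_s {B : Type} [CommGroup B] (x : Wr B) : (x ^ 2).s = 0 := by
  rw [pow_two]
  exact Wr.add_self_zmod2 _

/-- class two -/
theorem g_class (x y : Con gdat) (hx : x.q = 1) (hy : y.q = 1) : cm (cm x y) y = 1 := by
  have hz : (cm x y).q = 1 := by rw [cm_q, hx, hy]; exact cm_eq_one rfl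
  have hza : (cm x y).a = 0 := by
    rw [cm_a1 x y hx, hy, map_one, Module.End.one_apply, sub_self]
  apply cm_eq_one
  refine Con.ext ?_ ?_ ?_
  · rw [Con.mul_a, Con.mul_a, hza, hz, hy, map_one]
    simp
  · rw [Con.mul_c, Con.mul_c, hza, hz, hy, map_one, map_one]
    simp [add_comm]
  · rw [Con.mul_q, Con.mul_q, hz, hy]

abbrev GG : Type := Con (sdat (fdat (P := PP) (Con.rep gdat)))

theorem vw_q (φ : FreeGroup ℕ →* Con gdat × PP) : φ vw = 1 := by
  refine Prod.ext ?_ ?_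
  · let g : FreeGroup ℕ →* Con gdat := (MonoidHom.fst _ _).comp φ
    show g vw = 1
    rw [vw, map_cm, map_cm]
    have h : ∀ x y : FreeGroup ℕ, (g (cm (x ^ 2) (y ^ 2))).q = 1 := by
      intro x y
      rw [map_cm, cm_q, map_pow, map_pow]
      have e : ∀ z : Con gdat, (z ^ 2).q.s = 0 := fun z => by
        rw [pow_two, Con.mul_q]; exact Wr.add_self_zmod2 _
      exact cm_eq_one (wr_comm_of _ _ (e _) (e _))
    exact g_class _ _ (h _ _) (h _ _)
  · let p : FreeGroup ℕ →* PP := (MonoidHom.snd _ _).comp φ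
    show p vw = 1
    rw [vw, map_cm, map_cm]
    have : cm (p bw2) (p bw1) = 1 := by
      apply cm_eq_one
      rw [bw1, bw2, map_cm, map_cm]
      exact pp_comm _ _ (pp_cm_q _ _) (pp_cm_q _ _)
    rw [this]
    simp [cm]

theorem aw_q (φ : FreeGroup ℕ →* Con gdat × PP) : (φ aw).1.q = 1 ∧ (φ aw).2 = 1 := by
  constructor
  · let g : FreeGroup ℕ →* Con gdat := (MonoidHom.fst _ _).comp φ
    show (g aw).q = 1
    rw [aw, map_cm, cm_q, map_pow, map_pow]
    have e : ∀ z : Con gdat, (z ^ ee).q.s = 0 := fun z => by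
      rw [ee, mul_comm, pow_mul, pow_two, Con.mul_q]; exact Wr.add_self_zmod2 _
    exact cm_eq_one (wr_comm_of _ _ (e _) (e _))
  · let p : FreeGroup ℕ →* PP := (MonoidHom.snd _ _).comp φ
    show p aw = 1
    rw [aw, map_cm, map_pow, map_pow]
    have e : ∀ z : PP, z ^ ee = 1 := fun z => by
      rw [ee, mul_comm, pow_mul, pow_card_eq_one', one_pow]
    rw [e, e]
    simp [cm]

theorem cw_s (φ : FreeGroup ℕ →* Con gdat × PP) (n : ℕ) : (φ (cw n)).1.q.s = 0 := by
  induction n with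
  | zero => simp [cw]
  | succ m ih =>
    rw [cw, map_mul, Prod.fst_mul, Con.mul_q, Wr.mul_s, ih, map_pow, pow_two, Prod.fst_mul,
      Con.mul_q, zero_add]
    exact Wr.add_self_zmod2 _

theorem rep_kill (A A' : Con gdat) (hA : A.q = 1) (hA' : A'.q = 1)
    (hom : gdat.om A'.a A.a = 0) (v : ℤ × (ZMod 2 → OO × OO) × (ZMod 2 → OO)) :
    (v - Con.rep gdat A v) - Con.rep gdat A' (v - Con.rep gdat A v) = 0 := by
  obtain ⟨r, e, w⟩ := v
  rw [Con.rep_apply, Con.rep_apply]
  simp only [hA, hA', map_one, Module.End.one_apply, Prod.mk_sub_mk]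
  refine Prod.ext ?_ (Prod.ext ?_ ?_)
  · simp
  · simp
  · have h1 : gdat.om A'.a (r • A.a) = 0 := by rw [map_smul, hom, smul_zero]
    have h2 : gdat.om A'.a (e - (r • A.a + e)) = 0 := by
      rw [map_sub, map_add, h1, zero_add, sub_self]
    show (w - (r • A.c + w + gdat.om A.a e)) - ((r - r) • A'.c +
      (w - (r • A.c + w + gdat.om A.a e)) + gdat.om A'.a (e - (r • A.a + e))) = 0
    rw [h2, sub_self, zero_smul, zero_add, add_zero, sub_self]

theorem Lw_law (n : ℕ) (f : FreeGroup ℕ →* GG) : f (Lw n) = 1 := by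
  let φ : FreeGroup ℕ →* Con gdat × PP := (Con.proj _).comp f
  have hv : (f vw).q = 1 := vw_q φ
  obtain ⟨ha1, ha2⟩ := aw_q φ
  have hc := cw_s φ n
  set x := f vw with hx
  set y := f aw with hy
  set c := f (cw n) with hcc
  have ha1' : y.q.1.q = 1 := ha1
  have ha2' : y.q.2 = 1 := ha2
  have hc' : c.q.1.q.s = 0 := hc
  have h1 : f (Lw n) = cm (cm x y) (c * y * c⁻¹) := by
    rw [Lw, map_cm, map_cm, map_mul, map_mul, map_inv]
  rw [h1]
  have hq1 : (cm x y).q = 1 := by
    rw [cm_q, hv]; exact cm_eq_one (by rw [one_mul, mul_one])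
  refine Con.ext ?_ (Subsingleton.elim _ _) ?_
  · rw [cm_a1 _ _ hq1, cm_a1 _ _ hv, Con.one_a]
    funext p
    show (x.a p - Con.rep gdat y.q.1 (x.a ((y.q.2)⁻¹ * p))) -
      Con.rep gdat (c * y * c⁻¹).q.1 (x.a (((c * y * c⁻¹).q.2)⁻¹ * p) -
        Con.rep gdat y.q.1 (x.a ((y.q.2)⁻¹ * (((c * y * c⁻¹).q.2)⁻¹ * p)))) = 0
    have e2 : (c * y * c⁻¹).q.2 = 1 := by
      rw [Con.mul_q, Con.mul_q, Con.inv_q, Prod.snd_mul, Prod.snd_mul, Prod.snd_inv, ha2', mul_one,
        mul_inv_cancel]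
    have e1 : (c * y * c⁻¹).q.1 = c.q.1 * y.q.1 * (c.q.1)⁻¹ := rfl
    simp only [e2, ha2', inv_one, one_mul, e1]
    refine rep_kill _ _ ha1' ?_ ?_ _
    · simp [ha1']
    · have ha' : (c.q.1 * y.q.1 * (c.q.1)⁻¹).a = gdat.pe c.q.1.q y.q.1.a := by
        simp only [Con.mul_a, Con.mul_q, ha1', mul_one, Con.inv_a, map_neg]
        rw [← Module.End.mul_apply, ← map_mul, mul_inv_cancel, map_one, Module.End.one_apply]
        abel
      rw [ha']
      funext m
      show ((up (c.q.1.q.b m) : OO) • y.q.1.a (m + c.q.1.q.s)).1 * (y.q.1.a m).2 -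
        ((up (c.q.1.q.b m) : OO) • y.q.1.a (m + c.q.1.q.s)).2 * (y.q.1.a m).1 = 0
      rw [hc', add_zero, Prod.smul_fst, Prod.smul_snd, smul_eq_mul, smul_eq_mul]
      ring
  · rw [cm_q, hq1, Con.one_q]
    exact cm_eq_one (by rw [one_mul, mul_one])

end Pool.Agent.FBZ
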